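import Mathlib

set_option autoImplicit false

/-!
# The error of a cubature formula as an integral against the discrepancy function
-/

namespace Pool.Agent.R476.DM

open Finset MeasureTheory

/-- `f(x) = ∫_{[x,1]} φ` -/
noncomputable def prim {d : ℕ} (φ : (Fin d → ℝ) → ℝ) (x : Fin d → ℝ) : ℝ :=
  ∫ y in Set.Icc x 1, φ y

/-- the discrepancy function of a weighted set of nodes -/
noncomputable def DD {ι : Type} {d : ℕ} (T : Finset ι) (lam : ι → ℝ) (ξ : ι → Fin d → ℝ)
    (y : Fin d → ℝ) : ℝ :=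
  ∑ j ∈ T, lam j * (if ∀ i, ξ j i ≤ y i then (1 : ℝ) else 0) - ∏ i, y i

theorem measurableSet_le_pi {d : ℕ} (x : Fin d → ℝ) :
    MeasurableSet {y : Fin d → ℝ | ∀ i, x i ≤ y i} := by
  have : {y : Fin d → ℝ | ∀ i, x i ≤ y i} = ⋂ i, {y : Fin d → ℝ | x i ≤ y i} := by
    ext y; simp
  rw [this]
  exact MeasurableSet.iInter fun i => measurableSet_le measurable_const (measurable_pi_apply i)

theorem measurable_step {d : ℕ} (x : Fin d → ℝ) :
    Measurable (fun y : Fin d → ℝ => if ∀ i, x i ≤ y i then (1 : ℝ) else 0) :=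
  Measurable.ite (measurableSet_le_pi x) measurable_const measurable_const

theorem measurable_DD {ι : Type} {d : ℕ} (T : Finset ι) (lam : ι → ℝ) (ξ : ι → Fin d → ℝ) :
    Measurable (DD T lam ξ) := by
  unfold DD
  refine Measurable.sub ?_ (Finset.measurable_fun_prod _ fun i _ => measurable_pi_apply i)
  exact Finset.measurable_fun_sum _ fun j _ => (measurable_step (ξ j)).const_mul _

theorem measurableSet_le2 (d : ℕ) :
    MeasurableSet {p : (Fin d → ℝ) × (Fin d → ℝ) | ∀ i, p.1 i ≤ p.2 i} := by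
  have : {p : (Fin d → ℝ) × (Fin d → ℝ) | ∀ i, p.1 i ≤ p.2 i} =
      ⋂ i, {p : (Fin d → ℝ) × (Fin d → ℝ) | p.1 i ≤ p.2 i} := by
    ext y; simp
  rw [this]
  exact MeasurableSet.iInter fun i => measurableSet_le
    ((measurable_pi_apply i).comp measurable_fst) ((measurable_pi_apply i).comp measurable_snd)

instance finite_cube (d : ℕ) : IsFiniteMeasure (volume.restrict (Set.Icc (0 : Fin d → ℝ) 1)) := by
  constructor
  rw [Measure.restrict_apply_univ, Real.volume_Icc_pi]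
  simp

theorem prim_eq {d : ℕ} (φ : (Fin d → ℝ) → ℝ) (x : Fin d → ℝ) (hx : 0 ≤ x) :
    prim φ x = ∫ y in Set.Icc (0 : Fin d → ℝ) 1,
      φ y * (if ∀ i, x i ≤ y i then (1 : ℝ) else 0) := by
  have h1 : (fun y : Fin d → ℝ => φ y * (if ∀ i, x i ≤ y i then (1 : ℝ) else 0)) =
      {y : Fin d → ℝ | ∀ i, x i ≤ y i}.indicator φ := by
    funext y
    by_cases h : ∀ i, x i ≤ y i
    · rw [if_pos h, mul_one, Set.indicator_of_mem]
      exact h
    · rw [if_neg h, mul_zero, Set.indicator_of_notMem]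
      exact h
  rw [h1, setIntegral_indicator (measurableSet_le_pi x)]
  unfold prim
  congr 2
  ext y
  constructor
  · rintro ⟨h1, h2⟩
    exact ⟨⟨hx.trans h1, h2⟩, h1⟩
  · rintro ⟨⟨h1, h2⟩, h3⟩
    exact ⟨h3, h2⟩

theorem integral_step {d : ℕ} (y : Fin d → ℝ) (hy : y ∈ Set.Icc (0 : Fin d → ℝ) 1) :
    ∫ x in Set.Icc (0 : Fin d → ℝ) 1, (if ∀ i, x i ≤ y i then (1 : ℝ) else 0) = ∏ i, y i := by
  have hm : MeasurableSet (Set.Iic y) := measurableSet_Iic
  have h1 : (fun x : Fin d → ℝ => (if ∀ i, x i ≤ y i then (1 : ℝ) else 0)) =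
      (Set.Iic y).indicator (fun _ => (1 : ℝ)) := by
    funext x
    by_cases h : ∀ i, x i ≤ y i
    · rw [if_pos h, Set.indicator_of_mem]
      exact h
    · rw [if_neg h, Set.indicator_of_notMem]
      exact h
  rw [h1, setIntegral_indicator hm]
  have h2 : Set.Icc (0 : Fin d → ℝ) 1 ∩ Set.Iic y = Set.Icc 0 y := by
    ext x
    constructor
    · rintro ⟨⟨h1, h2⟩, h3⟩
      exact ⟨h1, h3⟩
    · rintro ⟨h1, h2⟩
      exact ⟨⟨h1, h2.trans hy.2⟩, h2⟩
  rw [h2, setIntegral_const, smul_eq_mul, mul_one, measureReal_def, Real.volume_Icc_pi_toReal hy.1]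
  simp

theorem integrable_mul {d : ℕ} (φ g : (Fin d → ℝ) → ℝ) (hφ : Measurable φ) (hg : Measurable g)
    (B C : ℝ) (hB : ∀ y, |φ y| ≤ B) (hC : ∀ y ∈ Set.Icc (0 : Fin d → ℝ) 1, |g y| ≤ C) :
    Integrable (fun y => φ y * g y) (volume.restrict (Set.Icc (0 : Fin d → ℝ) 1)) := by
  refine Integrable.of_bound (hφ.mul hg).aestronglyMeasurable (B * C) ?_
  rw [ae_restrict_iff' measurableSet_Icc]
  refine Filter.Eventually.of_forall fun y hy => ?_
  have hB0 : 0 ≤ B := (abs_nonneg _).trans (hB y)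
  simp only [Real.norm_eq_abs, abs_mul]
  exact mul_le_mul (hB y) (hC y hy) (abs_nonneg _) hB0

theorem abs_step_le {d : ℕ} (x y : Fin d → ℝ) :
    |(if ∀ i, x i ≤ y i then (1 : ℝ) else 0)| ≤ 1 := by
  split_ifs <;> simp

theorem abs_prod_le {d : ℕ} (y : Fin d → ℝ) (hy : y ∈ Set.Icc (0 : Fin d → ℝ) 1) :
    |∏ i, y i| ≤ 1 := by
  rw [Finset.abs_prod]
  apply Finset.prod_le_one
  · intro i _; exact abs_nonneg _
  · intro i _
    rw [abs_of_nonneg (hy.1 i)]
    exact hy.2 i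

theorem integral_prim {d : ℕ} (φ : (Fin d → ℝ) → ℝ) (hφ : Measurable φ) (B : ℝ)
    (hB : ∀ y, |φ y| ≤ B) :
    ∫ x in Set.Icc (0 : Fin d → ℝ) 1, prim φ x =
      ∫ y in Set.Icc (0 : Fin d → ℝ) 1, φ y * ∏ i, y i := by
  have h1 : ∫ x in Set.Icc (0 : Fin d → ℝ) 1, prim φ x =
      ∫ x in Set.Icc (0 : Fin d → ℝ) 1, ∫ y in Set.Icc (0 : Fin d → ℝ) 1,
        φ y * (if ∀ i, x i ≤ y i then (1 : ℝ) else 0) :=
    setIntegral_congr_fun measurableSet_Icc fun x hx => prim_eq φ x hx.1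
  rw [h1, integral_integral_swap]
  · refine setIntegral_congr_fun measurableSet_Icc fun y hy => ?_
    rw [integral_const_mul, integral_step y hy]
  · refine Integrable.of_bound ?_ (B * 1) ?_
    · refine Measurable.aestronglyMeasurable ?_
      unfold Function.uncurry
      refine (hφ.comp measurable_snd).mul ?_
      exact Measurable.ite (measurableSet_le2 d) measurable_const measurable_const
    · refine Filter.Eventually.of_forall fun p => ?_
      have hB0 : 0 ≤ B := (abs_nonneg _).trans (hB p.2)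
      simp only [Function.uncurry, Real.norm_eq_abs, abs_mul]
      exact mul_le_mul (hB p.2) (abs_step_le p.1 p.2) (abs_nonneg _) hB0

/-- **the error of a cubature formula** for the function `∫_{[x,1]} φ` -/
theorem err_eq {ι : Type} {d : ℕ} (T : Finset ι) (lam : ι → ℝ) (ξ : ι → Fin d → ℝ)
    (hξ : ∀ j ∈ T, 0 ≤ ξ j) (φ : (Fin d → ℝ) → ℝ) (hφ : Measurable φ) (B : ℝ)
    (hB : ∀ y, |φ y| ≤ B) :
    ∑ j ∈ T, lam j * prim φ (ξ j) - ∫ x in Set.Icc (0 : Fin d → ℝ) 1, prim φ x =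
      ∫ y in Set.Icc (0 : Fin d → ℝ) 1, φ y * DD T lam ξ y := by
  have hi1 : ∀ j ∈ T, Integrable (fun y : Fin d → ℝ =>
      lam j * (φ y * (if ∀ i, ξ j i ≤ y i then (1 : ℝ) else 0)))
      (volume.restrict (Set.Icc (0 : Fin d → ℝ) 1)) := fun j _ =>
    (integrable_mul φ _ hφ (measurable_step (ξ j)) B 1 hB fun y _ => abs_step_le _ y).const_mul _
  have hi2 : Integrable (fun y : Fin d → ℝ => φ y * ∏ i, y i)
      (volume.restrict (Set.Icc (0 : Fin d → ℝ) 1)) :=
    integrable_mul φ _ hφ (Finset.measurable_fun_prod _ fun i _ => measurable_pi_apply i) B 1 hB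
      abs_prod_le
  have h1 : (fun y : Fin d → ℝ => φ y * DD T lam ξ y) = fun y =>
      (∑ j ∈ T, lam j * (φ y * (if ∀ i, ξ j i ≤ y i then (1 : ℝ) else 0))) - φ y * ∏ i, y i := by
    funext y
    unfold DD
    rw [mul_sub, Finset.mul_sum]
    congr 1
    refine Finset.sum_congr rfl fun j _ => ?_
    ring
  rw [h1, integral_sub (integrable_finsetSum _ hi1) hi2, integral_finsetSum _ hi1,
    integral_prim φ hφ B hB]
  congr 1
  refine Finset.sum_congr rfl fun j hj => ?_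
  rw [integral_const_mul, prim_eq φ (ξ j) (hξ j hj)]

end Pool.Agent.R476.DM
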