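import Pool.Agent.R476.DM.Dual
import Pool.Agent.R476.DM.Err

set_option autoImplicit false

/-!
# The lower bound for cubature formulas
-/

namespace Pool.Agent.R476.DM

open Finset MeasureTheory
open Pool.Agent.H730R2.LD

/-- dyadic interval -/
def II (R c : ℕ) : Set ℝ := Set.Ico ((c : ℝ) / 2 ^ R) (((c : ℝ) + 1) / 2 ^ R)

/-- dyadic cube -/
def cell (d R : ℕ) (x : Fin d → Fin (2 ^ R)) : Set (Fin d → ℝ) :=
  Set.pi Set.univ (fun i => II R (x i).val)

theorem II_unique (R c c' : ℕ) (t : ℝ) (h : t ∈ II R c) (h' : t ∈ II R c') : c = c' := by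
  have hpos : (0 : ℝ) < 2 ^ R := by positivity
  obtain ⟨h1, h2⟩ := h
  obtain ⟨h3, h4⟩ := h'
  have h5 : (c : ℝ) < (c' : ℝ) + 1 := by
    have := h1.trans_lt h4
    rwa [div_lt_div_iff_of_pos_right hpos] at this
  have h6 : (c' : ℝ) < (c : ℝ) + 1 := by
    have := h3.trans_lt h2
    rwa [div_lt_div_iff_of_pos_right hpos] at this
  have h7 : c < c' + 1 := by exact_mod_cast h5
  have h8 : c' < c + 1 := by exact_mod_cast h6
  omega

theorem II_sub (R : ℕ) (c : Fin (2 ^ R)) : II R c.val ⊆ Set.Icc 0 1 := by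
  rintro t ⟨h1, h2⟩
  have hpos : (0 : ℝ) < 2 ^ R := by positivity
  have h3 : ((c.val : ℝ) + 1) ≤ 2 ^ R := by exact_mod_cast c.isLt
  refine ⟨le_trans (by positivity) h1, h2.le.trans ?_⟩
  rw [div_le_one hpos]
  exact h3

theorem II_vol (R c : ℕ) : (volume (II R c)).toReal = 1 / 2 ^ R := by
  unfold II
  rw [Real.volume_Ico, ENNReal.toReal_ofReal]
  · rw [← sub_div]; congr 1; ring
  · rw [← sub_div]
    have : (c : ℝ) + 1 - c = 1 := by ring
    rw [this]
    positivity

theorem cell_meas (d R : ℕ) (x : Fin d → Fin (2 ^ R)) : MeasurableSet (cell d R x) :=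
  MeasurableSet.univ_pi fun _ => measurableSet_Ico

theorem cell_sub (d R : ℕ) (x : Fin d → Fin (2 ^ R)) : cell d R x ⊆ Set.Icc 0 1 := by
  intro y hy
  have h := fun i => II_sub R (x i) (hy i (Set.mem_univ i))
  exact ⟨fun i => (h i).1, fun i => (h i).2⟩

theorem cell_unique (d R : ℕ) (x x' : Fin d → Fin (2 ^ R)) (y : Fin d → ℝ)
    (h : y ∈ cell d R x) (h' : y ∈ cell d R x') : x = x' := by
  funext i
  exact Fin.ext (II_unique R _ _ (y i) (h i (Set.mem_univ i)) (h' i (Set.mem_univ i)))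

theorem setInt_prod (d R : ℕ) (x : Fin d → Fin (2 ^ R)) (b : Fin d → ℝ → ℝ) :
    ∫ y in cell d R x, ∏ i, b i (y i) = ∏ i, ∫ t in II R (x i).val, b i t := by
  unfold cell
  rw [volume_pi, Measure.restrict_pi_pi, integral_fintype_prod_eq_prod]

/-- the step function with the value `F x` on the cube `x` -/
noncomputable def stp (d R : ℕ) (F : (Fin d → Fin (2 ^ R)) → ℝ) (y : Fin d → ℝ) : ℝ :=
  ∑ x, F x * (cell d R x).indicator (fun _ => (1 : ℝ)) y

theorem stp_meas (d R : ℕ) (F : (Fin d → Fin (2 ^ R)) → ℝ) : Measurable (stp d R F) :=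
  Finset.measurable_fun_sum _ fun x _ =>
    (measurable_const.indicator (cell_meas d R x)).const_mul _

theorem stp_mem (d R : ℕ) (F : (Fin d → Fin (2 ^ R)) → ℝ) (x : Fin d → Fin (2 ^ R))
    (y : Fin d → ℝ) (h : y ∈ cell d R x) : stp d R F y = F x := by
  unfold stp
  rw [Finset.sum_eq_single x]
  · rw [Set.indicator_of_mem h, mul_one]
  · intro x' _ hx'
    rw [Set.indicator_of_notMem, mul_zero]
    intro h'
    exact hx' (cell_unique d R x' x y h' h)
  · intro h'
    exact absurd (Finset.mem_univ _) h'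

theorem stp_abs (d R : ℕ) (F : (Fin d → Fin (2 ^ R)) → ℝ) (hF : ∀ x, |F x| ≤ 1)
    (y : Fin d → ℝ) : |stp d R F y| ≤ 1 := by
  by_cases h : ∃ x, y ∈ cell d R x
  · obtain ⟨x, hx⟩ := h
    rw [stp_mem d R F x y hx]
    exact hF x
  · push Not at h
    unfold stp
    rw [Finset.sum_eq_zero]
    · simp
    · intro x _
      rw [Set.indicator_of_notMem (h x), mul_zero]

theorem stp_int (d R : ℕ) (F : (Fin d → Fin (2 ^ R)) → ℝ) (g : (Fin d → ℝ) → ℝ)
    (hg : Integrable g (volume.restrict (Set.Icc (0 : Fin d → ℝ) 1))) :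
    ∫ y in Set.Icc (0 : Fin d → ℝ) 1, stp d R F y * g y =
      ∑ x, F x * ∫ y in cell d R x, g y := by
  have h1 : (fun y => stp d R F y * g y) = fun y => ∑ x, F x * (cell d R x).indicator g y := by
    funext y
    unfold stp
    rw [Finset.sum_mul]
    refine Finset.sum_congr rfl fun x _ => ?_
    by_cases h : y ∈ cell d R x
    · rw [Set.indicator_of_mem h, Set.indicator_of_mem h, mul_one]
    · rw [Set.indicator_of_notMem h, Set.indicator_of_notMem h]; ring
  rw [h1, integral_finsetSum _ fun x _ => (hg.indicator (cell_meas d R x)).const_mul _]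
  refine Finset.sum_congr rfl fun x _ => ?_
  rw [integral_const_mul, setIntegral_indicator (cell_meas d R x),
    Set.inter_eq_right.2 (cell_sub d R x)]

theorem stp_line (d R : ℕ) (F : (Fin d → Fin (2 ^ R)) → ℝ) (k : Fin d)
    (hF : (gridSys d R).E k 0 F = 0) (y : Fin d → ℝ) :
    ∫ t in Set.Icc (0 : ℝ) 1, stp d R F (Function.update y k t) = 0 := by
  classical
  set G : (Fin d → Fin (2 ^ R)) → ℝ := fun x => if ∀ i, i ≠ k → y i ∈ II R (x i).val then 1 else 0
    with hG
  have h1 : (fun t : ℝ => stp d R F (Function.update y k t)) = fun t =>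
      ∑ x, F x * G x * (II R (x k).val).indicator (fun _ => (1 : ℝ)) t := by
    funext t
    unfold stp
    refine Finset.sum_congr rfl fun x _ => ?_
    rw [mul_assoc]
    congr 1
    have hiff : Function.update y k t ∈ cell d R x ↔
        (∀ i, i ≠ k → y i ∈ II R (x i).val) ∧ t ∈ II R (x k).val := by
      constructor
      · intro h
        refine ⟨fun i hi => ?_, ?_⟩
        · have := h i (Set.mem_univ i)
          rwa [Function.update_of_ne hi] at this
        · have := h k (Set.mem_univ k)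
          rwa [Function.update_self] at this
      · rintro ⟨h1, h2⟩ i _
        by_cases hi : i = k
        · subst hi
          rw [Function.update_self]
          exact h2
        · rw [Function.update_of_ne hi]
          exact h1 i hi
    by_cases ha : ∀ i, i ≠ k → y i ∈ II R (x i).val
    · by_cases hb : t ∈ II R (x k).val
      · rw [Set.indicator_of_mem (hiff.2 ⟨ha, hb⟩), Set.indicator_of_mem hb, hG]
        simp only
        rw [if_pos ha, mul_one]
      · rw [Set.indicator_of_notMem (fun h => hb (hiff.1 h).2), Set.indicator_of_notMem hb, mul_zero]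
    · rw [Set.indicator_of_notMem (fun h => ha (hiff.1 h).1), hG]
      simp only
      rw [if_neg ha, zero_mul]
  rw [h1, integral_finsetSum]
  · have h2 : ∀ x : Fin d → Fin (2 ^ R), ∫ t in Set.Icc (0 : ℝ) 1,
        F x * G x * (II R (x k).val).indicator (fun _ => (1 : ℝ)) t = (G * F) x * (1 / 2 ^ R) := by
      intro x
      rw [integral_const_mul, setIntegral_indicator (show MeasurableSet (II R (x k).val) from
        measurableSet_Ico), Set.inter_eq_right.2 (II_sub R (x k)), setIntegral_const,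
        measureReal_def, II_vol, Pi.mul_apply, smul_eq_mul]
      ring
    rw [Finset.sum_congr rfl fun x _ => h2 x, ← Finset.sum_mul, ← (gridSys d R).E_sum k 0,
      (gridSys d R).E_pull k 0 G F, hF, mul_zero]
    · simp
    · intro a b hab
      obtain ⟨h3, -⟩ := (gridSys_rel d R k 0 a b).1 hab
      rw [hG]
      simp only
      congr 1
      refine propext (forall_congr' fun i => forall_congr' fun hi => ?_)
      rw [h3 i hi]
  · intro x _
    refine Integrable.const_mul ?_ _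
    exact (integrable_const (1 : ℝ)).indicator measurableSet_Ico

theorem int_id (R c : ℕ) : ∫ t in II R c, t = ((c : ℝ) + 1 / 2) / 2 ^ R / 2 ^ R := by
  have hpos : (0 : ℝ) < 2 ^ R := by positivity
  have hle : (c : ℝ) / 2 ^ R ≤ ((c : ℝ) + 1) / 2 ^ R := by
    apply div_le_div_of_nonneg_right _ hpos.le
    linarith
  unfold II
  rw [integral_Ico_eq_integral_Ioo, ← integral_Ioc_eq_integral_Ioo,
    ← intervalIntegral.integral_of_le hle, integral_id]
  field_simp
  ring

theorem int_step_low (R c : ℕ) (ξ : ℝ) (h : ((c : ℝ) + 1) / 2 ^ R ≤ ξ) :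
    ∫ t in II R c, (if ξ ≤ t then (1 : ℝ) else 0) = 0 := by
  have h1 : ∫ t in II R c, (if ξ ≤ t then (1 : ℝ) else 0) = ∫ t in II R c, (0 : ℝ) := by
    refine setIntegral_congr_fun measurableSet_Ico fun t ht => ?_
    have ht2 : t < ((c : ℝ) + 1) / 2 ^ R := ht.2
    exact if_neg (not_le.2 (ht2.trans_le h))
  rw [h1]
  simp

theorem int_step_high (R c : ℕ) (ξ : ℝ) (h : ξ ≤ (c : ℝ) / 2 ^ R) :
    ∫ t in II R c, (if ξ ≤ t then (1 : ℝ) else 0) = 1 / 2 ^ R := by
  have h1 : ∫ t in II R c, (if ξ ≤ t then (1 : ℝ) else 0) = ∫ t in II R c, (1 : ℝ) := by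
    refine setIntegral_congr_fun measurableSet_Ico fun t ht => ?_
    have ht1 : (c : ℝ) / 2 ^ R ≤ t := ht.1
    exact if_pos (h.trans ht1)
  rw [h1, setIntegral_const, measureReal_def, II_vol]
  simp

theorem int_DD {ι : Type} (d R : ℕ) (T : Finset ι) (lam : ι → ℝ) (ξ : ι → Fin d → ℝ)
    (x : Fin d → Fin (2 ^ R)) :
    ∫ y in cell d R x, DD T lam ξ y =
      ∑ j ∈ T, lam j * ∏ i, (∫ t in II R (x i).val, (if ξ j i ≤ t then (1 : ℝ) else 0)) -
        ∏ i, ((((x i).val : ℝ) + 1 / 2) / 2 ^ R / 2 ^ R) := by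
  have hfin : IsFiniteMeasure (volume.restrict (cell d R x)) := by
    constructor
    rw [Measure.restrict_apply_univ]
    refine lt_of_le_of_lt (measure_mono (cell_sub d R x)) ?_
    rw [Real.volume_Icc_pi]
    simp
  have hi1 : ∀ j ∈ T, Integrable (fun y : Fin d → ℝ =>
      lam j * (if ∀ i, ξ j i ≤ y i then (1 : ℝ) else 0)) (volume.restrict (cell d R x)) := by
    intro j _
    refine Integrable.const_mul ?_ _
    refine Integrable.of_bound (measurable_step (ξ j)).aestronglyMeasurable 1 ?_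
    exact Filter.Eventually.of_forall fun y => by
      rw [Real.norm_eq_abs]; exact abs_step_le _ y
  have hi2 : Integrable (fun y : Fin d → ℝ => ∏ i, y i) (volume.restrict (cell d R x)) := by
    refine Integrable.of_bound
      (Finset.measurable_fun_prod _ fun i _ => measurable_pi_apply i).aestronglyMeasurable 1 ?_
    rw [ae_restrict_iff' (cell_meas d R x)]
    exact Filter.Eventually.of_forall fun y hy => by
      rw [Real.norm_eq_abs]; exact abs_prod_le y (cell_sub d R x hy)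
  unfold DD
  rw [integral_sub (integrable_finsetSum _ hi1) hi2, integral_finsetSum _ hi1]
  congr 1
  · refine Finset.sum_congr rfl fun j _ => ?_
    rw [integral_const_mul]
    congr 1
    rw [← setInt_prod d R x (fun i t => if ξ j i ≤ t then (1 : ℝ) else 0)]
    congr 1
    funext y
    rw [Finset.prod_ite_zero]
    simp
  · rw [setInt_prod d R x (fun _ t => t)]
    exact Finset.prod_congr rfl fun i _ => int_id R (x i).val

/-- the averaged discrepancy function satisfies the block identities -/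
theorem loc_DD {ι : Type} (d n : ℕ) (T : Finset ι) (lam : ι → ℝ) (ξ : ι → Fin d → ℝ)
    (hT : 2 * T.card ≤ 2 ^ n) (M : ℝ) :
    Loc d n M (fun x => M * (2 ^ ((n + 1) * d) * ∫ y in cell d (n + 1) x, DD T lam ξ y)) := by
  have hpos : (0 : ℝ) < 2 ^ (n + 1) := by positivity
  have h := loc_sum d n T (fun j => M * lam j) (fun j i => ⌊ξ j i * 2 ^ (n + 1)⌋₊)
    (fun j i b => 2 ^ (n + 1) * ∫ t in II (n + 1) b.val, (if ξ j i ≤ t then (1 : ℝ) else 0)) (by
      intro j _ i b b' hb hb'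
      have key : ∀ b : ℕ, b < ⌊ξ j i * 2 ^ (n + 1)⌋₊ →
          ∫ t in II (n + 1) b, (if ξ j i ≤ t then (1 : ℝ) else 0) = 0 := by
        intro b hb
        apply int_step_low
        rw [div_le_iff₀ hpos]
        have h1 : b + 1 ≤ ⌊ξ j i * 2 ^ (n + 1)⌋₊ := hb
        have h2 := (Nat.le_floor_iff' (Nat.succ_ne_zero b)).1 h1
        push_cast at h2
        exact h2
      simp only [key _ hb, key _ hb']) (by
      intro j _ i b b' hb hb'
      have key : ∀ b : ℕ, ⌊ξ j i * 2 ^ (n + 1)⌋₊ < b →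
          ∫ t in II (n + 1) b, (if ξ j i ≤ t then (1 : ℝ) else 0) = 1 / 2 ^ (n + 1) := by
        intro b hb
        apply int_step_high
        rw [le_div_iff₀ hpos]
        have h1 := Nat.lt_floor_add_one (ξ j i * 2 ^ (n + 1))
        have h2 : ((⌊ξ j i * 2 ^ (n + 1)⌋₊ : ℕ) : ℝ) + 1 ≤ (b : ℝ) := by exact_mod_cast hb
        linarith
      simp only [key _ hb, key _ hb']) hT (fun _ => 1 / 2) M
  convert h using 1
  funext x
  rw [int_DD, mul_sub, mul_sub, Finset.mul_sum, Finset.mul_sum]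
  have hp : (2 : ℝ) ^ ((n + 1) * d) = ∏ _i : Fin d, (2 : ℝ) ^ (n + 1) := by
    rw [Finset.prod_const, Finset.card_univ, Fintype.card_fin, ← pow_mul]
  congr 1
  · refine Finset.sum_congr rfl fun j _ => ?_
    rw [Finset.prod_mul_distrib, ← hp]
    ring
  · rw [hp, ← Finset.prod_mul_distrib]
    congr 1
    refine Finset.prod_congr rfl fun i _ => ?_
    field_simp

/-- **the lower bound for cubature formulas**, with a step function -/
theorem cub_lower_stp (d : ℕ) (hd : 1 ≤ d) (C : ℝ) :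
    ∃ c : ℝ, 0 < c ∧ ∀ M : ℝ, 2 ≤ M →
      ∀ (ι : Type) (T : Finset ι) (lam : ι → ℝ) (ξ : ι → Fin d → ℝ), (T.card : ℝ) ≤ C * M →
        (∀ j ∈ T, 0 ≤ ξ j) →
        ∃ (R : ℕ) (F : (Fin d → Fin (2 ^ R)) → ℝ), (∀ x, |F x| ≤ 1) ∧
          (∀ k : Fin d, (gridSys d R).E k 0 F = 0) ∧
          c * (Real.log M) ^ (((d : ℝ) - 1) / 2) / M ≤
            ∑ j ∈ T, lam j * prim (stp d R F) (ξ j) -
              ∫ x in Set.Icc (0 : Fin d → ℝ) 1, prim (stp d R F) x := by
  classical
  obtain ⟨ε, hε, c, hc, hgrid⟩ := grid_abs d hd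
  set C' : ℝ := max C 1 with hC'
  have hC'1 : 1 ≤ C' := le_max_right _ _
  have hC'C : C ≤ C' := le_max_left _ _
  have hC'0 : 0 < C' := by linarith
  have hd0 : (0 : ℝ) < d := by exact_mod_cast hd
  have hα : 0 ≤ ((d : ℝ) - 1) / 2 := by
    have : (1 : ℝ) ≤ d := by exact_mod_cast hd
    linarith
  refine ⟨ε * (c * (1 / (4 * C')) * (1 / d) ^ (((d : ℝ) - 1) / 2)), by positivity, ?_⟩
  intro M hM ι T lam ξ hT hξ
  have hM0 : 0 < M := by linarith
  obtain ⟨n, hn1, hn2, hlogn⟩ := exists_levels C' M hC'1 hM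
  have hcardT : 2 * T.card ≤ 2 ^ n := by
    have : (2 : ℝ) * T.card ≤ 2 ^ n := by
      refine le_trans ?_ hn1
      have : C * M ≤ C' * M := mul_le_mul_of_nonneg_right hC'C hM0.le
      linarith
    exact_mod_cast this
  set θ : ℝ := c * (1 / (4 * C')) * (1 / d) ^ (((d : ℝ) - 1) / 2) *
    (Real.log M) ^ (((d : ℝ) - 1) / 2) with hθ
  have hM2 : 1 / (4 * C') ≤ M / 2 ^ n := by
    rw [div_le_div_iff₀ (by positivity) (by positivity)]
    linarith
  have hlog : 0 < Real.log M := Real.log_pos (by linarith)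
  have hθ0 : 0 < θ := by positivity
  have hpow : (1 / (d : ℝ)) ^ (((d : ℝ) - 1) / 2) * (Real.log M) ^ (((d : ℝ) - 1) / 2) ≤
      ((n : ℝ) / d) ^ (((d : ℝ) - 1) / 2) := by
    rw [← Real.mul_rpow (by positivity) hlog.le]
    apply Real.rpow_le_rpow (by positivity) _ hα
    rw [div_mul_eq_mul_div, one_mul]
    exact div_le_div_of_nonneg_right hlogn hd0.le
  have hthr : θ ≤ c * (M / 2 ^ n) * ((n : ℝ) / d) ^ (((d : ℝ) - 1) / 2) := by
    calc θ = c * (1 / (4 * C')) * ((1 / d) ^ (((d : ℝ) - 1) / 2) *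
            (Real.log M) ^ (((d : ℝ) - 1) / 2)) := by rw [hθ]; ring
      _ ≤ c * (M / 2 ^ n) * ((n : ℝ) / d) ^ (((d : ℝ) - 1) / 2) := by
          apply mul_le_mul _ hpow (by positivity) (by positivity)
          exact mul_le_mul_of_nonneg_left hM2 hc.le
  set D : (Fin d → Fin (2 ^ (n + 1))) → ℝ := fun x =>
    M * (2 ^ ((n + 1) * d) * ∫ y in cell d (n + 1) x, DD T lam ξ y) with hD
  have hloc : Loc d n M D := loc_DD d n T lam ξ hcardT M
  -- the distance to the functions of fewer variables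
  set L : ℝ := θ * (ε * 2 ^ ((n + 1) * d)) with hL
  have hL0 : 0 < L := by positivity
  have hdist : ∀ v ∈ VV d (n + 1), L ≤ ∑ x, |D x + v x| := by
    rintro v ⟨g, hg, rfl⟩
    have h1 := hgrid n (D + ∑ k, g k) M hM0 (hloc.add_sum g hg)
    set A : Finset (Fin d → Fin (2 ^ (n + 1))) :=
      univ.filter (fun x => c * (M / 2 ^ n) * ((n : ℝ) / d) ^ (((d : ℝ) - 1) / 2) ≤
        |(D + ∑ k, g k) x|) with hA
    calc L ≤ θ * (A.card : ℝ) := mul_le_mul_of_nonneg_left h1 hθ0.le
      _ = ∑ _x ∈ A, θ := by rw [Finset.sum_const, nsmul_eq_mul]; ring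
      _ ≤ ∑ x ∈ A, |(D + ∑ k, g k) x| :=
          Finset.sum_le_sum fun x hx => hthr.trans (Finset.mem_filter.1 hx).2
      _ ≤ ∑ x, |(D + ∑ k, g k) x| := Finset.sum_le_univ_sum_of_nonneg fun x => abs_nonneg _
      _ = _ := rfl
  obtain ⟨F, hF1, hF2, hF3⟩ := exists_dual D (VV d (n + 1)) L hL0 hdist
  refine ⟨n + 1, F, hF1, mean_zero d (n + 1) F hF2, ?_⟩
  have hDint : Integrable (DD T lam ξ) (volume.restrict (Set.Icc (0 : Fin d → ℝ) 1)) := by
    have h0 : Integrable (fun y => (fun _ : Fin d → ℝ => (1 : ℝ)) y * DD T lam ξ y)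
        (volume.restrict (Set.Icc (0 : Fin d → ℝ) 1)) := by
      refine integrable_mul (fun _ => 1) _ measurable_const (measurable_DD T lam ξ) 1
        (∑ j ∈ T, |lam j| + 1) (fun _ => by simp) fun y hy => ?_
      unfold DD
      refine (abs_sub _ _).trans (add_le_add ?_ (abs_prod_le y hy))
      refine (Finset.abs_sum_le_sum_abs _ _).trans (Finset.sum_le_sum fun j _ => ?_)
      rw [abs_mul]
      exact mul_le_of_le_one_right (abs_nonneg _) (abs_step_le _ y)
    simpa using h0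
  rw [err_eq T lam ξ hξ _ (stp_meas d (n + 1) F) 1 (stp_abs d (n + 1) F hF1),
    stp_int d (n + 1) F _ hDint]
  have hsum : ∑ x, F x * D x =
      M * 2 ^ ((n + 1) * d) * ∑ x, F x * ∫ y in cell d (n + 1) x, DD T lam ξ y := by
    rw [Finset.mul_sum]
    refine Finset.sum_congr rfl fun x _ => ?_
    rw [hD]
    ring
  rw [hF3] at hsum
  have hpp : (0 : ℝ) < 2 ^ ((n + 1) * d) := by positivity
  rw [div_le_iff₀ hM0]
  have h5 : (ε * (c * (1 / (4 * C')) * (1 / d) ^ (((d : ℝ) - 1) / 2)) *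
      Real.log M ^ (((d : ℝ) - 1) / 2)) * 2 ^ ((n + 1) * d) = L := by
    rw [hL, hθ]; ring
  have h6 : (ε * (c * (1 / (4 * C')) * (1 / d) ^ (((d : ℝ) - 1) / 2)) *
      Real.log M ^ (((d : ℝ) - 1) / 2)) * 2 ^ ((n + 1) * d) =
      ((∑ x, F x * ∫ y in cell d (n + 1) x, DD T lam ξ y) * M) * 2 ^ ((n + 1) * d) := by
    rw [h5, hsum]; ring
  exact (mul_right_cancel₀ hpp.ne' h6).le

/-- **the lower bound for cubature formulas** -/
theorem cub_lower (d : ℕ) (hd : 1 ≤ d) (C : ℝ) :
    ∃ c : ℝ, 0 < c ∧ ∀ M : ℝ, 2 ≤ M →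
      ∀ (ι : Type) (T : Finset ι) (lam : ι → ℝ) (ξ : ι → Fin d → ℝ), (T.card : ℝ) ≤ C * M →
        (∀ j ∈ T, 0 ≤ ξ j) →
        ∃ φ : (Fin d → ℝ) → ℝ, Measurable φ ∧ (∀ y, |φ y| ≤ 1) ∧
          (∀ (k : Fin d) (y : Fin d → ℝ),
            ∫ t in Set.Icc (0 : ℝ) 1, φ (Function.update y k t) = 0) ∧
          c * (Real.log M) ^ (((d : ℝ) - 1) / 2) / M ≤
            ∑ j ∈ T, lam j * prim φ (ξ j) - ∫ x in Set.Icc (0 : Fin d → ℝ) 1, prim φ x := by
  obtain ⟨c, hc, H⟩ := cub_lower_stp d hd C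
  refine ⟨c, hc, fun M hM ι T lam ξ hT hξ => ?_⟩
  obtain ⟨R, F, h1, h2, h3⟩ := H M hM ι T lam ξ hT hξ
  exact ⟨stp d R F, stp_meas d R F, stp_abs d R F h1, fun k y => stp_line d R F k (h2 k) y, h3⟩

end Pool.Agent.R476.DM
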