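import Pool.Agent.R476.DM.Grid

set_option autoImplicit false

/-!
# A bounded function orthogonal to all functions which do not depend on one of the variables
-/

namespace Pool.Agent.R476.DM

open Finset
open Pool.Agent.H730R2.LD

/-- duality between `ℓ₁` distance and bounded functionals, on a finite set -/
theorem exists_dual {X : Type} [Fintype X] (D : X → ℝ) (V : Submodule ℝ (X → ℝ)) (L : ℝ)
    (hL : 0 < L) (h : ∀ v ∈ V, L ≤ ∑ x, |D x + v x|) :
    ∃ φ : X → ℝ, (∀ x, |φ x| ≤ 1) ∧ (∀ v ∈ V, ∑ x, φ x * v x = 0) ∧ ∑ x, φ x * D x = L := by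
  classical
  have hD : D ∉ V := by
    intro hD
    have h1 := h (-D) (V.neg_mem hD)
    simp at h1
    linarith
  set f0 : (X → ℝ) →ₗ.[ℝ] ℝ := ⟨V, 0⟩ with hf0
  have hf00 : ∀ z : f0.domain, f0 z = 0 := fun z => rfl
  set f : (X → ℝ) →ₗ.[ℝ] ℝ := f0.supSpanSingleton D L hD with hf
  have key : ∀ z : f.domain, f z ≤ ∑ x, |(z : X → ℝ) x| := by
    rintro ⟨z, hz⟩
    have hz' : z ∈ V ⊔ Submodule.span ℝ {D} := hz
    obtain ⟨v, hv, y, hy, rfl⟩ := Submodule.mem_sup.1 hz'
    obtain ⟨t, rfl⟩ := Submodule.mem_span_singleton.1 hy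
    have e1 : f ⟨v + t • D, hz⟩ = t * L := by
      have := LinearPMap.supSpanSingleton_apply_mk f0 D L hD v hv t
      refine this.trans ?_
      simp [hf00]
    rw [e1]
    by_cases ht : t ≤ 0
    · calc t * L ≤ 0 := mul_nonpos_of_nonpos_of_nonneg ht hL.le
        _ ≤ _ := Finset.sum_nonneg fun _ _ => abs_nonneg _
    · push Not at ht
      have h1 := h (t⁻¹ • v) (V.smul_mem _ hv)
      calc t * L ≤ t * ∑ x, |D x + (t⁻¹ • v) x| := mul_le_mul_of_nonneg_left h1 ht.le
        _ = ∑ x, |(v + t • D) x| := by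
            rw [Finset.mul_sum]
            refine Finset.sum_congr rfl fun x _ => ?_
            rw [← abs_of_pos ht, ← abs_mul, abs_of_pos ht]
            congr 1
            simp only [Pi.add_apply, Pi.smul_apply, smul_eq_mul]
            field_simp
            ring
  obtain ⟨g, hg1, hg2⟩ := exists_extension_of_le_sublinear f (fun z => ∑ x, |z x|)
    (by
      intro c hc z
      rw [Finset.mul_sum]
      refine Finset.sum_congr rfl fun x _ => ?_
      rw [Pi.smul_apply, smul_eq_mul, abs_mul, abs_of_pos hc])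
    (by
      intro y z
      rw [← Finset.sum_add_distrib]
      exact Finset.sum_le_sum fun x _ => abs_add_le _ _) key
  have hgs : ∀ z : X → ℝ, g z = ∑ x, g (Pi.single x 1) * z x := by
    intro z
    conv_lhs => rw [← Finset.univ_sum_single z]
    rw [map_sum]
    refine Finset.sum_congr rfl fun x _ => ?_
    have : (Pi.single x (z x) : X → ℝ) = z x • Pi.single x 1 := by
      rw [← Pi.single_smul, smul_eq_mul, mul_one]
    rw [this, map_smul, smul_eq_mul, mul_comm]
  have hN : ∀ x : X, ∑ y, |(Pi.single x (1 : ℝ) : X → ℝ) y| = 1 := by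
    intro x
    rw [Finset.sum_eq_single x]
    · simp
    · intro y _ hy
      rw [Pi.single_eq_of_ne hy, abs_zero]
    · simp
  refine ⟨fun x => g (Pi.single x 1), fun x => ?_, fun v hv => ?_, ?_⟩
  · rw [abs_le]
    constructor
    · have h1 := hg2 (-Pi.single x 1)
      rw [map_neg] at h1
      have h2 : ∑ y, |(-(Pi.single x (1 : ℝ)) : X → ℝ) y| = 1 := by
        simp only [Pi.neg_apply, abs_neg]
        exact hN x
      simp only [h2] at h1
      linarith
    · have h1 := hg2 (Pi.single x 1)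
      rw [hN x] at h1
      exact h1
  · rw [← hgs]
    have h1 : v ∈ f.domain := by
      show v ∈ V ⊔ Submodule.span ℝ {D}
      exact Submodule.mem_sup_left hv
    have h2 := hg1 ⟨v, h1⟩
    rw [show g v = g ((⟨v, h1⟩ : f.domain) : X → ℝ) from rfl, h2]
    have h3 := LinearPMap.supSpanSingleton_apply_mk f0 D L hD v hv 0
    have h4 : (⟨v, h1⟩ : f.domain) = ⟨v + (0 : ℝ) • D, by
        rw [zero_smul, add_zero]; exact h1⟩ := by
      apply Subtype.ext
      simp
    rw [h4]
    refine h3.trans ?_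
    simp [hf00]
  · rw [← hgs]
    have h1 : D ∈ f.domain := by
      show D ∈ V ⊔ Submodule.span ℝ {D}
      exact Submodule.mem_sup_right (Submodule.mem_span_singleton_self D)
    have h2 := hg1 ⟨D, h1⟩
    rw [show g D = g ((⟨D, h1⟩ : f.domain) : X → ℝ) from rfl, h2]
    have h3 := LinearPMap.supSpanSingleton_apply_mk f0 D L hD 0 V.zero_mem 1
    have h4 : (⟨D, h1⟩ : f.domain) = ⟨0 + (1 : ℝ) • D, by
        rw [one_smul, zero_add]; exact h1⟩ := by
      apply Subtype.ext
      simp
    rw [h4]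
    refine h3.trans ?_
    simp [hf00]

/-- sums of functions each of which is independent of one of the coordinates -/
def VV (d R : ℕ) : Submodule ℝ ((Fin d → Fin (2 ^ R)) → ℝ) where
  carrier := {v | ∃ g : Fin d → (Fin d → Fin (2 ^ R)) → ℝ,
    (∀ (k : Fin d) (x : Fin d → Fin (2 ^ R)) (t : Fin (2 ^ R)),
      g k (Function.update x k t) = g k x) ∧ v = ∑ k, g k}
  add_mem' := by
    rintro _ _ ⟨g, hg, rfl⟩ ⟨g', hg', rfl⟩
    refine ⟨fun k => g k + g' k, fun k x t => ?_, ?_⟩
    · simp only [Pi.add_apply, hg k x t, hg' k x t]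
    · rw [Finset.sum_add_distrib]
  zero_mem' := ⟨fun _ => 0, fun _ _ _ => rfl, by simp⟩
  smul_mem' := by
    rintro c _ ⟨g, hg, rfl⟩
    refine ⟨fun k => c • g k, fun k x t => ?_, ?_⟩
    · simp only [Pi.smul_apply, hg k x t]
    · rw [Finset.smul_sum]

/-- a function orthogonal to the functions independent of the coordinate `k` has mean zero along
the lines in the direction `k` -/
theorem mean_zero (d R : ℕ) (φ : (Fin d → Fin (2 ^ R)) → ℝ)
    (h : ∀ v ∈ VV d R, ∑ x, φ x * v x = 0) (k : Fin d) : (gridSys d R).E k 0 φ = 0 := by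
  classical
  set S := gridSys d R with hS
  set e : (Fin d → Fin (2 ^ R)) → ℝ := S.E k 0 φ with he
  have hind : ∀ (x : Fin d → Fin (2 ^ R)) (t : Fin (2 ^ R)), e (Function.update x k t) = e x := by
    intro x t
    apply S.E_meas
    rw [hS, gridSys_rel]
    refine ⟨fun i hi => Function.update_of_ne hi _ _, ?_⟩
    rw [Nat.sub_zero, Nat.div_eq_of_lt (Fin.isLt _), Nat.div_eq_of_lt (Fin.isLt _)]
  have h1 : ∑ x, φ x * e x = 0 := by
    apply h
    refine ⟨fun k' => if k' = k then e else 0, fun k' x t => ?_, ?_⟩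
    · by_cases hk : k' = k
      · subst hk
        simp only [if_true]
        exact hind x t
      · simp [hk]
    · rw [Finset.sum_ite_eq' univ k]
      simp
  have h2 : ∑ x, φ x * e x = ∑ x, e x * e x := by
    have h3 := S.E_adj k 0 φ e
    have h4 : S.E k 0 e = e := by rw [he, S.E_idem]
    rw [h4] at h3
    rw [h3]
  rw [h2] at h1
  have h5 := (Finset.sum_eq_zero_iff_of_nonneg (fun x _ => mul_self_nonneg (e x))).1 h1
  funext x
  exact mul_self_eq_zero.1 (h5 x (Finset.mem_univ x))

end Pool.Agent.R476.DM
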