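import Pool.Agent.R476.DM.Meas
import Pool.Agent.R476.DM.Err

set_option autoImplicit false

/-!
# The lower bound for boxes which are not anchored at the origin
-/

namespace Pool.Agent.R476.DM

open Finset MeasureTheory

/-- the discrepancy of the box `[u,v)` -/
noncomputable def BD {ι : Type} {d : ℕ} (T : Finset ι) (w : ι → ℝ) (P : ι → Fin d → ℝ) (M : ℝ)
    (u v : Fin d → ℝ) : ℝ :=
  ∑ j ∈ T, w j * (if ∀ i, u i ≤ P j i ∧ P j i < v i then (1 : ℝ) else 0) - M * ∏ i, (v i - u i)

/-- the box discrepancy with the corner `u` fixed is a discrepancy function modulo functions of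
fewer variables -/
theorem BD_eq {ι : Type} {d : ℕ} (T : Finset ι) (w : ι → ℝ) (P : ι → Fin d → ℝ) (M : ℝ)
    (u v : Fin d → ℝ) :
    BD T w P M u v = FF T w (fun j i t => if u i ≤ P j i ∧ P j i < t then (1 : ℝ) else 0) M
      (fun k v => M * (u k * (∏ j ∈ univ.filter (fun j => j < k), (v j - u j)) *
        ∏ j ∈ univ.filter (fun j => k < j), v j)) v := by
  unfold BD FF
  have h1 : ∏ i, (v i - u i) = ∏ i, v i - ∑ k, u k * (∏ j ∈ univ.filter (fun j => j < k),
      (v j - u j)) * ∏ j ∈ univ.filter (fun j => k < j), v j := Finset.prod_sub_ordered univ v u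
  rw [h1, ← Finset.mul_sum, mul_sub]
  have h2 : ∀ j ∈ T, w j * (if ∀ i, u i ≤ P j i ∧ P j i < v i then (1 : ℝ) else 0) =
      w j * ∏ i, (if u i ≤ P j i ∧ P j i < v i then (1 : ℝ) else 0) := by
    intro j _
    congr 1
    rw [Finset.prod_ite_zero]
    simp
  rw [Finset.sum_congr rfl h2]
  ring

theorem measurable_g {d : ℕ} (M : ℝ) (u : Fin d → ℝ) (k : Fin d) :
    Measurable (fun v : Fin d → ℝ => M * (u k * (∏ j ∈ univ.filter (fun j => j < k),
      (v j - u j)) * ∏ j ∈ univ.filter (fun j => k < j), v j)) := by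
  refine Measurable.const_mul (Measurable.mul (Measurable.const_mul ?_ _) ?_) _
  · exact Finset.measurable_fun_prod _ fun i _ => (measurable_pi_apply i).sub_const _
  · exact Finset.measurable_fun_prod _ fun i _ => measurable_pi_apply i

theorem update_g {d : ℕ} (M : ℝ) (u : Fin d → ℝ) (k : Fin d) (v : Fin d → ℝ) (t : ℝ) :
    M * (u k * (∏ j ∈ univ.filter (fun j => j < k), (Function.update v k t j - u j)) *
      ∏ j ∈ univ.filter (fun j => k < j), Function.update v k t j) =
    M * (u k * (∏ j ∈ univ.filter (fun j => j < k), (v j - u j)) *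
      ∏ j ∈ univ.filter (fun j => k < j), v j) := by
  have h1 : ∏ j ∈ univ.filter (fun j => j < k), (Function.update v k t j - u j) =
      ∏ j ∈ univ.filter (fun j => j < k), (v j - u j) := by
    refine Finset.prod_congr rfl fun j hj => ?_
    rw [Function.update_of_ne (Finset.mem_filter.1 hj).2.ne]
  have h2 : ∏ j ∈ univ.filter (fun j => k < j), Function.update v k t j =
      ∏ j ∈ univ.filter (fun j => k < j), v j := by
    refine Finset.prod_congr rfl fun j hj => ?_
    rw [Function.update_of_ne (Finset.mem_filter.1 hj).2.ne']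
  rw [h1, h2]

theorem measurable_BD {ι : Type} {d : ℕ} (T : Finset ι) (w : ι → ℝ) (P : ι → Fin d → ℝ) (M : ℝ) :
    Measurable (fun p : (Fin d → ℝ) × (Fin d → ℝ) => BD T w P M p.1 p.2) := by
  unfold BD
  refine Measurable.sub ?_ (Measurable.const_mul ?_ _)
  · refine Finset.measurable_fun_sum _ fun j _ => Measurable.const_mul ?_ _
    refine Measurable.ite ?_ measurable_const measurable_const
    have : {p : (Fin d → ℝ) × (Fin d → ℝ) | ∀ i, p.1 i ≤ P j i ∧ P j i < p.2 i} =
        ⋂ i, ({p : (Fin d → ℝ) × (Fin d → ℝ) | p.1 i ≤ P j i} ∩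
          {p : (Fin d → ℝ) × (Fin d → ℝ) | P j i < p.2 i}) := by
      ext p; simp
    rw [this]
    refine MeasurableSet.iInter fun i => MeasurableSet.inter ?_ ?_
    · exact measurableSet_le ((measurable_pi_apply i).comp measurable_fst) measurable_const
    · exact measurableSet_lt measurable_const ((measurable_pi_apply i).comp measurable_snd)
  · refine Finset.measurable_fun_prod _ fun i _ => Measurable.sub ?_ ?_
    · exact (measurable_pi_apply i).comp measurable_snd
    · exact (measurable_pi_apply i).comp measurable_fst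

/-- the pairs of corners in the unit cube -/
def corners (d : ℕ) : Set ((Fin d → ℝ) × (Fin d → ℝ)) :=
  {p | p.1 ∈ Set.Icc (0 : Fin d → ℝ) 1 ∧ p.2 ∈ Set.Icc (0 : Fin d → ℝ) 1 ∧ p.1 ≤ p.2}

theorem measurableSet_corners (d : ℕ) : MeasurableSet (corners d) := by
  unfold corners
  have h1 : {p : (Fin d → ℝ) × (Fin d → ℝ) | p.1 ∈ Set.Icc (0 : Fin d → ℝ) 1 ∧
      p.2 ∈ Set.Icc (0 : Fin d → ℝ) 1 ∧ p.1 ≤ p.2} =
      (Prod.fst ⁻¹' Set.Icc (0 : Fin d → ℝ) 1) ∩ ((Prod.snd ⁻¹' Set.Icc (0 : Fin d → ℝ) 1) ∩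
        {p : (Fin d → ℝ) × (Fin d → ℝ) | ∀ i, p.1 i ≤ p.2 i}) := by
    ext p; rfl
  rw [h1]
  exact (measurable_fst measurableSet_Icc).inter
    ((measurable_snd measurableSet_Icc).inter (measurableSet_le2 d))

/-- **the lower bound in measure for the discrepancy of boxes** -/
theorem extr_measure (d : ℕ) (hd : 1 ≤ d) (C : ℝ) :
    ∃ c : ℝ, 0 < c ∧ ∀ M : ℝ, 2 ≤ M →
      ∀ (ι : Type) (T : Finset ι) (w : ι → ℝ) (P : ι → Fin d → ℝ), (T.card : ℝ) ≤ C * M →
        ENNReal.ofReal c ≤ volume (corners d ∩ {p : (Fin d → ℝ) × (Fin d → ℝ) |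
          c * (Real.log M) ^ (((d : ℝ) - 1) / 2) ≤ |BD T w P M p.1 p.2|}) := by
  classical
  obtain ⟨ε, hε, c, hc, H⟩ := measure_mod d hd C
  have hd0 : (0 : ℝ) < d := by exact_mod_cast hd
  set δ : ℝ := min (ε / (2 * d)) 1 with hδ
  have hδ0 : 0 < δ := by positivity
  have hδ1 : δ ≤ 1 := min_le_right _ _
  have hδε : d * δ ≤ ε / 2 := by
    calc (d : ℝ) * δ ≤ d * (ε / (2 * d)) := mul_le_mul_of_nonneg_left (min_le_left _ _) hd0.le
      _ = ε / 2 := by field_simp
  refine ⟨min c (δ ^ d * (ε / 2)), by positivity, fun M hM ι T w P hT => ?_⟩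
  set θ : ℝ := c * (Real.log M) ^ (((d : ℝ) - 1) / 2) with hθ
  have hlog : 0 ≤ (Real.log M) ^ (((d : ℝ) - 1) / 2) :=
    Real.rpow_nonneg (Real.log_nonneg (by linarith)) _
  set A : Set ((Fin d → ℝ) × (Fin d → ℝ)) := corners d ∩ {p | θ ≤ |BD T w P M p.1 p.2|} with hA
  have hAm : MeasurableSet A :=
    (measurableSet_corners d).inter (measurableSet_le measurable_const (measurable_BD T w P M).abs)
  have hsub : A ⊆ corners d ∩ {p : (Fin d → ℝ) × (Fin d → ℝ) |
      min c (δ ^ d * (ε / 2)) * (Real.log M) ^ (((d : ℝ) - 1) / 2) ≤ |BD T w P M p.1 p.2|} := by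
    rintro p ⟨h1, h2⟩
    exact ⟨h1, (mul_le_mul_of_nonneg_right (min_le_left _ _) hlog).trans h2⟩
  refine le_trans ?_ (measure_mono hsub)
  -- the slices
  have hslice : ∀ u ∈ Set.Icc (0 : Fin d → ℝ) (fun _ => δ),
      ENNReal.ofReal (ε / 2) ≤ volume (Prod.mk u ⁻¹' A) := by
    intro u hu
    have h1 := H M hM ι T w P (fun j i t => if u i ≤ P j i ∧ P j i < t then (1 : ℝ) else 0) hT
      (fun j i => Measurable.ite (by
        have : {a : ℝ | u i ≤ P j i ∧ P j i < a} = {a : ℝ | u i ≤ P j i} ∩ Set.Ioi (P j i) := by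
          ext a; rfl
        rw [this]
        exact (MeasurableSet.const _).inter measurableSet_Ioi) measurable_const measurable_const)
      (fun j _ i s t hs ht => by
        rw [if_neg (fun h => absurd h.2 (not_lt.2 hs.le)), if_neg (fun h => absurd h.2 (not_lt.2 ht.le))])
      (fun j _ i s t hs ht => by
        by_cases h : u i ≤ P j i
        · rw [if_pos ⟨h, hs⟩, if_pos ⟨h, ht⟩]
        · rw [if_neg (fun h' => h h'.1), if_neg (fun h' => h h'.1)])
      (fun k v => M * (u k * (∏ j ∈ univ.filter (fun j => j < k), (v j - u j)) *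
        ∏ j ∈ univ.filter (fun j => k < j), v j))
      (fun k => measurable_g M u k) (fun k v t => update_g M u k v t)
    set B : Set (Fin d → ℝ) := {x : Fin d → ℝ | x ∈ Set.Icc (0 : Fin d → ℝ) 1 ∧
      θ ≤ |BD T w P M u x|} with hB
    have h2 : ENNReal.ofReal ε ≤ volume B := by
      refine h1.trans (le_of_eq ?_)
      congr 1
      ext x
      simp only [hB, Set.mem_ofPred_eq, BD_eq T w P M u x, hθ]
    set Q : Set (Fin d → ℝ) := Set.Icc (0 : Fin d → ℝ) 1 \ Set.Icc (fun _ => δ) 1 with hQ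
    have hQv : volume Q ≤ ENNReal.ofReal (ε / 2) := by
      have hss : Set.Icc (fun _ => δ) (1 : Fin d → ℝ) ⊆ Set.Icc 0 1 :=
        Set.Icc_subset_Icc (fun _ => hδ0.le) le_rfl
      have hv1 : volume (Set.Icc (0 : Fin d → ℝ) 1) = ENNReal.ofReal 1 := by
        rw [Real.volume_Icc_pi]; simp
      have hv2 : volume (Set.Icc (fun _ => δ) (1 : Fin d → ℝ)) = ENNReal.ofReal ((1 - δ) ^ d) := by
        rw [Real.volume_Icc_pi]
        simp only [Pi.one_apply, Finset.prod_const, Finset.card_univ, Fintype.card_fin]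
        rw [ENNReal.ofReal_pow (by linarith)]
      rw [hQ, measure_diff hss measurableSet_Icc.nullMeasurableSet (by rw [hv2]; simp), hv1, hv2,
        ← ENNReal.ofReal_sub _ (pow_nonneg (by linarith) _)]
      apply ENNReal.ofReal_le_ofReal
      have hb := one_add_mul_le_pow (show (-2 : ℝ) ≤ -δ by linarith) d
      have hb' : 1 - d * δ ≤ (1 - δ) ^ d := by
        calc 1 - d * δ = 1 + (d : ℝ) * -δ := by ring
          _ ≤ (1 + -δ) ^ d := hb
          _ = _ := by rw [← sub_eq_add_neg]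
      linarith
    have h3 : B ⊆ (Prod.mk u ⁻¹' A) ∪ Q := by
      rintro x ⟨hx1, hx2⟩
      by_cases hxδ : x ∈ Set.Icc (fun _ => δ) (1 : Fin d → ℝ)
      · left
        refine ⟨⟨⟨hu.1, fun i => (hu.2 i).trans hδ1⟩, hx1, fun i => (hu.2 i).trans (hxδ.1 i)⟩, hx2⟩
      · right
        exact ⟨hx1, hxδ⟩
    have h4 : ENNReal.ofReal ε ≤ volume (Prod.mk u ⁻¹' A) + ENNReal.ofReal (ε / 2) :=
      (h2.trans ((measure_mono h3).trans (measure_union_le _ _))).trans
        (add_le_add le_rfl hQv)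
    have h5 : ENNReal.ofReal ε = ENNReal.ofReal (ε / 2) + ENNReal.ofReal (ε / 2) := by
      rw [← ENNReal.ofReal_add (by positivity) (by positivity)]
      congr 1; ring
    rw [h5] at h4
    exact (ENNReal.add_le_add_iff_right ENNReal.ofReal_ne_top).1 h4
  rw [Measure.volume_eq_prod, Measure.prod_apply hAm]
  calc ENNReal.ofReal (min c (δ ^ d * (ε / 2)))
      ≤ ENNReal.ofReal (δ ^ d * (ε / 2)) := ENNReal.ofReal_le_ofReal (min_le_right _ _)
    _ = ENNReal.ofReal (ε / 2) * volume (Set.Icc (0 : Fin d → ℝ) (fun _ => δ)) := by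
        rw [Real.volume_Icc_pi]
        simp only [Pi.zero_apply, sub_zero, Finset.prod_const, Finset.card_univ, Fintype.card_fin]
        rw [← ENNReal.ofReal_pow hδ0.le, mul_comm, ENNReal.ofReal_mul (by positivity)]
    _ = ∫⁻ _ in Set.Icc (0 : Fin d → ℝ) (fun _ => δ), ENNReal.ofReal (ε / 2) := by
        rw [setLIntegral_const]
    _ ≤ ∫⁻ u in Set.Icc (0 : Fin d → ℝ) (fun _ => δ), volume (Prod.mk u ⁻¹' A) :=
        setLIntegral_mono' measurableSet_Icc hslice
    _ ≤ ∫⁻ u, volume (Prod.mk u ⁻¹' A) := setLIntegral_le_lintegral _ _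

end Pool.Agent.R476.DM
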