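import Pool.Agent.H730R2.LD.Meas

set_option autoImplicit false

/-!
# The sharp lower bound on the grid for functions which are discrepancy functions on most blocks
-/

namespace Pool.Agent.R476.DM

open Finset
open Pool.Agent.H730R2.LD

/-- on most blocks of every shape the function acts on the functions with vanishing block averages
like `-M` times the local product -/
def Loc (d n : ℕ) (M : ℝ) (D : (Fin d → Fin (2 ^ (n + 1))) → ℝ) : Prop :=
  ∀ K : Fin d → ℕ, (∀ s, K s < n + 1) → ∑ s, K s = n →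
    ∃ NE : Finset (Fin d → Fin (2 ^ (n + 1))), 2 * NE.card ≤ 2 ^ ((n + 1) * d) ∧
      ∀ W : (Fin d → Fin (2 ^ (n + 1))) → ℝ, (∀ s, (gridSys d (n + 1)).E s (K s) W = 0) →
        ∀ x, x ∉ NE → (gridSys d (n + 1)).EU univ K (D * W) x =
          - M * (gridSys d (n + 1)).EU univ K (psi d (n + 1) K * W) x

/-- the lower bound on the grid, in measure -/
theorem grid_abs (d : ℕ) (hd : 1 ≤ d) : ∃ ε : ℝ, 0 < ε ∧ ∃ c : ℝ, 0 < c ∧
    ∀ (n : ℕ) (D : (Fin d → Fin (2 ^ (n + 1))) → ℝ) (M : ℝ), 0 < M → Loc d n M D →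
    ε * (2 ^ ((n + 1) * d)) ≤ ((univ.filter (fun x : Fin d → Fin (2 ^ (n + 1)) =>
      c * (M / 2 ^ n) * ((n : ℝ) / d) ^ (((d : ℝ) - 1) / 2) ≤ |D x|)).card : ℝ) := by
  classical
  set δ : ℝ := 1 / (4 * 4 ^ d) with hδ
  obtain ⟨ε, hε, C, hC, hmain⟩ := abstract_main d hd δ (by positivity)
  refine ⟨min ε 1, lt_min hε one_pos, 1 / (8 * 4 ^ d * Real.sqrt C), by positivity, ?_⟩
  intro n
  have hC0 : 0 < Real.sqrt C := Real.sqrt_pos.2 hC
  set R := n + 1 with hR
  set X := Fin d → Fin (2 ^ R) with hX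
  set S := gridSys d R with hS
  intro D M hM hD
  have hcardX : ((Fintype.card X : ℕ) : ℝ) = 2 ^ (R * d) := by
    show ((Fintype.card (Fin d → Fin (2 ^ R)) : ℕ) : ℝ) = 2 ^ (R * d)
    rw [Fintype.card_fun, Fintype.card_fin, Fintype.card_fin]
    push_cast
    rw [← pow_mul]
  have hcX : (0 : ℝ) < Fintype.card X := by rw [hcardX]; positivity
  -- the levels
  set KK : Finset (Fin d → ℕ) := (Lev d (n + 1) univ).filter (fun K => ∑ s, K s = n) with hKK
  have hKKcard : ((n : ℝ) / d) ^ (d - 1) ≤ (KK.card : ℝ) := card_levels d n hd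
  have hd0 : (0 : ℝ) < d := by exact_mod_cast hd
  have hroot : ((n : ℝ) / d) ^ (((d : ℝ) - 1) / 2) ≤ Real.sqrt KK.card := by
    apply Real.le_sqrt_of_sq_le
    refine le_trans (le_of_eq ?_) hKKcard
    have hnd : (0 : ℝ) ≤ (n : ℝ) / d := by positivity
    rw [← Real.rpow_natCast (((n : ℝ) / d) ^ (((d : ℝ) - 1) / 2)) 2, ← Real.rpow_mul hnd,
      ← Real.rpow_natCast ((n : ℝ) / d) (d - 1), Nat.cast_sub hd]
    congr 1
    push_cast
    ring
  set N : ℝ := (KK.card : ℝ) with hN
  have hN0 : 0 ≤ N := Nat.cast_nonneg _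
  by_cases hNz : N = 0
  · rw [hNz, Real.sqrt_zero] at hroot
    have h0 : ((n : ℝ) / d) ^ (((d : ℝ) - 1) / 2) = 0 :=
      le_antisymm hroot (Real.rpow_nonneg (by positivity) _)
    rw [h0, mul_zero]
    rw [Finset.filter_true_of_mem (fun x _ => abs_nonneg _), Finset.card_univ, ← hcardX]
    calc min ε 1 * (Fintype.card X : ℝ) ≤ 1 * Fintype.card X :=
          mul_le_mul_of_nonneg_right (min_le_right _ _) hcX.le
      _ = _ := one_mul _
  have hNpos : 0 < N := lt_of_le_of_ne hN0 (Ne.symm hNz)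
  set lam : ℝ := M / 2 ^ n / (4 * 4 ^ d) with hlam
  have hlam0 : 0 < lam := by positivity
  set M1 : ℝ := lam * Real.sqrt N / (2 * Real.sqrt C) with hM1
  have hM10 : 0 < M1 := by
    have : 0 < Real.sqrt N := Real.sqrt_pos.2 hNpos
    positivity
  -- the claim
  by_contra hcon
  push Not at hcon
  set B : Finset X := univ.filter (fun x => M1 < |D x|) with hB
  have hBcard : (B.card : ℝ) ≤ ε * Fintype.card X := by
    have hsub : B ⊆ univ.filter (fun x : X =>
        1 / (8 * 4 ^ d * Real.sqrt C) * (M / 2 ^ n) * ((n : ℝ) / d) ^ (((d : ℝ) - 1) / 2) ≤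
          |D x|) := by
      intro x hx
      refine Finset.mem_filter.2 ⟨Finset.mem_univ x, ?_⟩
      refine le_trans ?_ (Finset.mem_filter.1 hx).2.le
      calc 1 / (8 * 4 ^ d * Real.sqrt C) * (M / 2 ^ n) * ((n : ℝ) / d) ^ (((d : ℝ) - 1) / 2)
          ≤ 1 / (8 * 4 ^ d * Real.sqrt C) * (M / 2 ^ n) * Real.sqrt N :=
            mul_le_mul_of_nonneg_left hroot (by positivity)
        _ = M1 := by
            rw [hM1, hlam]
            field_simp
            ring
    have h1 : (B.card : ℝ) ≤ ((univ.filter (fun x : X =>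
        1 / (8 * 4 ^ d * Real.sqrt C) * (M / 2 ^ n) * ((n : ℝ) / d) ^ (((d : ℝ) - 1) / 2) ≤
          |D x|)).card : ℝ) := by exact_mod_cast Finset.card_le_card hsub
    calc (B.card : ℝ) ≤ _ := h1
      _ ≤ min ε 1 * (2 ^ ((n + 1) * d)) := hcon.le
      _ = min ε 1 * Fintype.card X := by rw [hcardX]
      _ ≤ _ := mul_le_mul_of_nonneg_right (min_le_left _ _) hcX.le
  obtain ⟨W, hW1, hW2, hW3, hW4⟩ := hmain R X S B hBcard
  have hpair := hW4 D M1 (by
    intro x hx
    by_contra h
    push Not at h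
    exact hx (Finset.mem_filter.2 ⟨Finset.mem_univ x, h⟩))
  -- lower bound for one level
  have hlow : ∀ K ∈ KK, lam * Fintype.card X ≤ ∑ x, |S.EU univ K (D * W K) x| := by
    intro K hK
    obtain ⟨hKL, hKs⟩ := Finset.mem_filter.1 hK
    have hKR : ∀ s, K s < R := fun s => (mem_Lev.1 hKL).1 s (Finset.mem_univ s)
    obtain ⟨NE, hNE1, hNE2⟩ := hD K hKR hKs
    have hNEcard : (NE.card : ℝ) ≤ 1 / 2 * Fintype.card X := by
      have h5 : (2 : ℝ) * NE.card ≤ 2 ^ (R * d) := by exact_mod_cast hNE1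
      rw [hcardX]
      linarith
    have hpt : ∀ x, x ∉ NE → M * (1 / 2 ^ n / 4 ^ d) -
        M * |S.EU univ K (psi d R K * (W K - S.chi univ K)) x| ≤ |S.EU univ K (D * W K) x| := by
      intro x hx
      have e1 := hNE2 (W K) (hW2 K hKR) x hx
      have e2 : S.EU univ K (psi d R K * W K) x =
          S.EU univ K (psi d R K * S.chi univ K) x +
            S.EU univ K (psi d R K * (W K - S.chi univ K)) x := by
        rw [← Pi.add_apply, ← map_add, ← mul_add, add_sub_cancel]
      have e3 : S.EU univ K (psi d R K * S.chi univ K) x = 1 / 2 ^ n / 4 ^ d := by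
        have h := EU_main d R K hKR x
        have h2 : (psi d R K * S.chi univ K) = (fun y : Fin d → Fin (2 ^ R) =>
            (∏ i, (((y i).val % 2 ^ (R - K i) : ℕ) : ℝ) / 2 ^ R) *
              (gridSys d R).chi univ K y) := rfl
        rw [h2]
        refine h.trans ?_
        rw [Finset.prod_div_distrib, Finset.prod_const_one, Finset.prod_mul_distrib,
          Finset.prod_const, Finset.card_univ, Fintype.card_fin, Finset.prod_pow_eq_pow_sum, hKs]
        field_simp
      have e4 : |S.EU univ K (D * W K) x| = M * |S.EU univ K (psi d R K * W K) x| := by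
        rw [hS, e1, abs_mul, abs_neg, abs_of_pos hM]
      rw [e4, e2, e3, ← mul_sub]
      apply mul_le_mul_of_nonneg_left _ hM.le
      have h1 := abs_sub_abs_le_abs_sub (1 / 2 ^ n / 4 ^ d : ℝ)
        (- S.EU univ K (psi d R K * (W K - S.chi univ K)) x)
      rw [abs_neg, sub_neg_eq_add, abs_of_pos (show (0 : ℝ) < 1 / 2 ^ n / 4 ^ d by positivity)] at h1
      exact h1
    have herr : ∑ x, |S.EU univ K (psi d R K * (W K - S.chi univ K)) x| ≤
        1 / 2 ^ n * (δ * Fintype.card X) := by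
      calc ∑ x, |S.EU univ K (psi d R K * (W K - S.chi univ K)) x|
          ≤ ∑ x, S.EU univ K (fun y => |(psi d R K * (W K - S.chi univ K)) y|) x :=
            Finset.sum_le_sum fun x _ => S.EU_abs_le K _ x
        _ = ∑ x, |(psi d R K * (W K - S.chi univ K)) x| := S.EU_sum K _
        _ ≤ ∑ x, 1 / 2 ^ n * |W K x - S.chi univ K x| := by
            apply Finset.sum_le_sum
            intro x _
            rw [Pi.mul_apply, abs_mul, abs_of_nonneg (psi_nonneg d R K x), Pi.sub_apply]
            apply mul_le_mul_of_nonneg_right _ (abs_nonneg _)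
            rw [← hKs]
            exact psi_le d R K hKR x
        _ = 1 / 2 ^ n * ∑ x, |W K x - S.chi univ K x| := by rw [Finset.mul_sum]
        _ ≤ _ := mul_le_mul_of_nonneg_left (hW3 K hKR) (by positivity)
    have hcompl : (1 / 2 : ℝ) * Fintype.card X ≤ ((univ \ NE).card : ℝ) := by
      have h1 : (univ \ NE).card = Fintype.card X - NE.card := by
        rw [Finset.card_sdiff_of_subset (Finset.subset_univ NE), Finset.card_univ]
      have h2 : NE.card ≤ Fintype.card X := Finset.card_le_univ NE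
      rw [h1, Nat.cast_sub h2]
      linarith
    calc lam * Fintype.card X
        = M * (1 / 2 ^ n / 4 ^ d) * (1 / 2 * Fintype.card X) -
            M * (1 / 2 ^ n * (δ * Fintype.card X)) := by
          rw [hlam, hδ]; field_simp; ring
      _ ≤ M * (1 / 2 ^ n / 4 ^ d) * ((univ \ NE).card : ℝ) -
            M * ∑ x, |S.EU univ K (psi d R K * (W K - S.chi univ K)) x| := by
          apply sub_le_sub
          · exact mul_le_mul_of_nonneg_left hcompl (by positivity)
          · exact mul_le_mul_of_nonneg_left herr hM.le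
      _ ≤ M * (1 / 2 ^ n / 4 ^ d) * ((univ \ NE).card : ℝ) -
            M * ∑ x ∈ univ \ NE, |S.EU univ K (psi d R K * (W K - S.chi univ K)) x| := by
          apply sub_le_sub_left
          apply mul_le_mul_of_nonneg_left _ hM.le
          exact Finset.sum_le_univ_sum_of_nonneg fun x => abs_nonneg _
      _ = ∑ x ∈ univ \ NE, (M * (1 / 2 ^ n / 4 ^ d) -
            M * |S.EU univ K (psi d R K * (W K - S.chi univ K)) x|) := by
          rw [Finset.sum_sub_distrib, Finset.sum_const, nsmul_eq_mul, Finset.mul_sum]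
          ring
      _ ≤ ∑ x ∈ univ \ NE, |S.EU univ K (D * W K) x| := by
          apply Finset.sum_le_sum
          intro x hx
          exact hpt x (Finset.mem_sdiff.1 hx).2
      _ ≤ _ := Finset.sum_le_univ_sum_of_nonneg fun x => abs_nonneg _
  -- upper bound
  have hup : ∑ K ∈ KK, ∑ x, |S.EU univ K (D * W K) x| ≤
      Real.sqrt (N * (Fintype.card X * (C * M1 ^ 2 * Fintype.card X))) := by
    apply Real.le_sqrt_of_sq_le
    have h1 : (∑ K ∈ KK, ∑ x, |S.EU univ K (D * W K) x|) ^ 2 ≤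
        KK.card * ∑ K ∈ KK, (∑ x, |S.EU univ K (D * W K) x|) ^ 2 :=
      sq_sum_le_card_mul_sum_sq
    have h2 : ∀ K ∈ KK, (∑ x, |S.EU univ K (D * W K) x|) ^ 2 ≤
        Fintype.card X * nsq (S.EU univ K (D * W K)) := by
      intro K _
      have h := sum_abs_le (S.EU univ K (D * W K))
      have h0 : 0 ≤ ∑ x, |S.EU univ K (D * W K) x| := Finset.sum_nonneg fun x _ => abs_nonneg _
      have h3 : (0 : ℝ) ≤ Fintype.card X * nsq (S.EU univ K (D * W K)) :=
        mul_nonneg hcX.le (nsq_nonneg _)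
      calc (∑ x, |S.EU univ K (D * W K) x|) ^ 2
          ≤ (Real.sqrt (Fintype.card X * nsq (S.EU univ K (D * W K)))) ^ 2 :=
            pow_le_pow_left₀ h0 h 2
        _ = _ := Real.sq_sqrt h3
    have h3 : ∑ K ∈ KK, nsq (S.EU univ K (D * W K)) ≤ C * M1 ^ 2 * Fintype.card X := by
      refine le_trans ?_ hpair
      exact Finset.sum_le_sum_of_subset_of_nonneg (Finset.filter_subset _ _)
        fun K _ _ => nsq_nonneg _
    calc (∑ K ∈ KK, ∑ x, |S.EU univ K (D * W K) x|) ^ 2
        ≤ KK.card * ∑ K ∈ KK, (∑ x, |S.EU univ K (D * W K) x|) ^ 2 := h1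
      _ ≤ KK.card * ∑ K ∈ KK, Fintype.card X * nsq (S.EU univ K (D * W K)) :=
          mul_le_mul_of_nonneg_left (Finset.sum_le_sum h2) hN0
      _ = KK.card * (Fintype.card X * ∑ K ∈ KK, nsq (S.EU univ K (D * W K))) := by
          rw [← Finset.mul_sum]
      _ ≤ _ := by
          apply mul_le_mul_of_nonneg_left _ hN0
          exact mul_le_mul_of_nonneg_left h3 hcX.le
  have hlow2 : N * (lam * Fintype.card X) ≤ ∑ K ∈ KK, ∑ x, |S.EU univ K (D * W K) x| := by
    calc N * (lam * Fintype.card X) = ∑ _K ∈ KK, lam * (Fintype.card X : ℝ) := by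
          rw [Finset.sum_const, nsmul_eq_mul]
      _ ≤ _ := Finset.sum_le_sum hlow
  have hsqrt : Real.sqrt (N * (Fintype.card X * (C * M1 ^ 2 * Fintype.card X))) =
      Real.sqrt N * (Real.sqrt C * M1 * Fintype.card X) := by
    rw [Real.sqrt_mul hN0]
    congr 1
    have : (Fintype.card X : ℝ) * (C * M1 ^ 2 * Fintype.card X) =
        C * (M1 * Fintype.card X) ^ 2 := by ring
    rw [this, Real.sqrt_mul hC.le, Real.sqrt_sq (by positivity)]
    ring
  rw [hsqrt] at hup
  have hfin := hlow2.trans hup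
  have hsN : 0 < Real.sqrt N := Real.sqrt_pos.2 hNpos
  have hsN2 : Real.sqrt N * Real.sqrt N = N := Real.mul_self_sqrt hN0
  have hval : Real.sqrt N * (Real.sqrt C * M1 * Fintype.card X) =
      N * lam / 2 * Fintype.card X := by
    rw [hM1]
    calc Real.sqrt N * (Real.sqrt C * (lam * Real.sqrt N / (2 * Real.sqrt C)) * Fintype.card X)
        = (Real.sqrt N * Real.sqrt N) * lam / 2 * Fintype.card X := by
          field_simp
      _ = _ := by rw [hsN2]
  rw [hval] at hfin
  have : 0 < N * lam * Fintype.card X := by positivity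
  nlinarith

/-- functions independent of one coordinate are invisible -/
theorem EU_indep (d R : ℕ) (K : Fin d → ℕ) (W g : (Fin d → Fin (2 ^ R)) → ℝ) (k : Fin d)
    (hW : (gridSys d R).E k (K k) W = 0)
    (hg : ∀ (x : Fin d → Fin (2 ^ R)) (t : Fin (2 ^ R)), g (Function.update x k t) = g x) :
    (gridSys d R).EU univ K (g * W) = 0 := by
  refine BoxAux.EU_zero d R K W g k hW fun x y hxy => ?_
  obtain ⟨h1, -⟩ := (BoxAux.rel_iff d R k (K k) x y).1 hxy
  have e : y = Function.update x k (y k) := by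
    funext t
    by_cases ht : t = k
    · subst ht; simp
    · rw [Function.update_of_ne ht, h1 t ht]
  rw [e, hg]

theorem Loc.add_indep {d n : ℕ} {M : ℝ} {D g : (Fin d → Fin (2 ^ (n + 1))) → ℝ} (h : Loc d n M D)
    (k : Fin d)
    (hg : ∀ (x : Fin d → Fin (2 ^ (n + 1))) (t : Fin (2 ^ (n + 1))),
      g (Function.update x k t) = g x) : Loc d n M (D + g) := by
  intro K hK hKs
  obtain ⟨NE, h1, h2⟩ := h K hK hKs
  refine ⟨NE, h1, fun W hW x hx => ?_⟩
  rw [add_mul, map_add, Pi.add_apply, h2 W hW x hx, EU_indep d (n + 1) K W g k (hW k) hg]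
  simp

theorem Loc.add_sum {d n : ℕ} {M : ℝ} {D : (Fin d → Fin (2 ^ (n + 1))) → ℝ} (h : Loc d n M D)
    (g : Fin d → (Fin d → Fin (2 ^ (n + 1))) → ℝ)
    (hg : ∀ (k : Fin d) (x : Fin d → Fin (2 ^ (n + 1))) (t : Fin (2 ^ (n + 1))),
      g k (Function.update x k t) = g k x) : Loc d n M (D + ∑ k, g k) := by
  classical
  have key : ∀ A : Finset (Fin d), Loc d n M (D + ∑ k ∈ A, g k) := by
    intro A
    induction A using Finset.induction_on with
    | empty => simpa using h
    | insert s A hs ih =>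
      rw [Finset.sum_insert hs, add_comm (g s), ← add_assoc]
      exact ih.add_indep s (hg s)
  exact key univ

/-- a product one factor of which is constant along the block -/
theorem EU_prod (d R : ℕ) (K : Fin d → ℕ) (W : (Fin d → Fin (2 ^ R)) → ℝ)
    (hW : ∀ s, (gridSys d R).E s (K s) W = 0) (a : Fin d → Fin (2 ^ R) → ℝ)
    (x : Fin d → Fin (2 ^ R)) (s : Fin d)
    (ha : ∀ b : Fin (2 ^ R), b.val / 2 ^ (R - K s) = (x s).val / 2 ^ (R - K s) →
      a s b = a s (x s)) :
    (gridSys d R).EU univ K (fun y => (∏ i, a i (y i)) * W y) x = 0 := by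
  classical
  set φ : (Fin d → Fin (2 ^ R)) → ℝ := fun y => a s (x s) * ∏ i ∈ univ.erase s, a i (y i) with hφ
  have h1 : (gridSys d R).EU univ K (fun y => (∏ i, a i (y i)) * W y) x =
      (gridSys d R).EU univ K (φ * W) x := by
    apply BoxAux.EU_local
    intro y _ hy
    rw [Pi.mul_apply]
    congr 1
    rw [hφ, ← Finset.mul_prod_erase univ _ (mem_univ s), ha (y s) (hy s (mem_univ s))]
  rw [h1, BoxAux.EU_zero d R K W φ s (hW s)]
  · rfl
  · intro y z hyz
    rw [BoxAux.rel_iff] at hyz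
    rw [hφ]
    simp only
    congr 1
    refine Finset.prod_congr rfl fun i hi => ?_
    rw [hyz.1 i (Finset.ne_of_mem_erase hi)]

/-- weighted sums of products of functions with one jump satisfy the block identities -/
theorem loc_sum (d n : ℕ) {ι : Type} (T : Finset ι) (w : ι → ℝ) (p : ι → Fin d → ℕ)
    (a : ι → Fin d → Fin (2 ^ (n + 1)) → ℝ)
    (ha1 : ∀ j ∈ T, ∀ i, ∀ b c : Fin (2 ^ (n + 1)), b.val < p j i → c.val < p j i →
      a j i b = a j i c)
    (ha2 : ∀ j ∈ T, ∀ i, ∀ b c : Fin (2 ^ (n + 1)), p j i < b.val → p j i < c.val →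
      a j i b = a j i c)
    (hT : 2 * T.card ≤ 2 ^ n) (u : Fin d → ℝ) (M : ℝ) :
    Loc d n M (fun x => ∑ j ∈ T, w j * ∏ i, a j i (x i) -
      M * ∏ i, (((x i).val : ℝ) + u i) / 2 ^ (n + 1)) := by
  classical
  intro K hKR hKs
  set X := Fin d → Fin (2 ^ (n + 1)) with hX
  refine ⟨univ.filter (fun x : X =>
      ∃ j ∈ T, ∀ s, p j s / 2 ^ ((n + 1) - K s) = (x s).val / 2 ^ ((n + 1) - K s)), ?_, ?_⟩
  · set NE : Finset X := univ.filter (fun x : X =>
      ∃ j ∈ T, ∀ s, p j s / 2 ^ ((n + 1) - K s) = (x s).val / 2 ^ ((n + 1) - K s)) with hNE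
    have h1 := card_nonempty d (n + 1) K ι T p
    have h2 : Nat.card {x : Fin d → Fin (2 ^ (n + 1)) // ∃ j ∈ T, ∀ s, p j s / 2 ^ ((n + 1) - K s) =
        (x s).val / 2 ^ ((n + 1) - K s)} = NE.card := by
      rw [Nat.card_eq_fintype_card, Fintype.card_subtype]
    rw [h2] at h1
    have h3 : (∏ s, 2 ^ ((n + 1) - K s)) * 2 ^ n = 2 ^ ((n + 1) * d) := by
      have h3' : (2 : ℕ) ^ n = ∏ s, 2 ^ K s := by rw [Finset.prod_pow_eq_pow_sum, hKs]
      rw [h3', ← Finset.prod_mul_distrib]
      have : ∀ s ∈ (univ : Finset (Fin d)), 2 ^ ((n + 1) - K s) * 2 ^ K s = 2 ^ (n + 1) := by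
        intro s _
        rw [← pow_add, Nat.sub_add_cancel (hKR s).le]
      rw [Finset.prod_congr rfl this, Finset.prod_const, Finset.card_univ, Fintype.card_fin,
        ← pow_mul]
    calc 2 * NE.card ≤ 2 * (T.card * ∏ s, 2 ^ ((n + 1) - K s)) := Nat.mul_le_mul_left 2 h1
      _ = (2 * T.card) * ∏ s, 2 ^ ((n + 1) - K s) := by ring
      _ ≤ 2 ^ n * ∏ s, 2 ^ ((n + 1) - K s) := Nat.mul_le_mul_right _ hT
      _ = 2 ^ ((n + 1) * d) := by rw [← h3]; ring
  · intro W hW x hx
    have hx' : ∀ j ∈ T, ∃ s, p j s / 2 ^ ((n + 1) - K s) ≠ (x s).val / 2 ^ ((n + 1) - K s) := by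
      intro j hj
      by_contra h
      push Not at h
      exact hx (Finset.mem_filter.2 ⟨Finset.mem_univ x, j, hj, h⟩)
    have hdec : (fun x : X => ∑ j ∈ T, w j * ∏ i, a j i (x i) -
        M * ∏ i, (((x i).val : ℝ) + u i) / 2 ^ (n + 1)) * W =
        ∑ j ∈ T, w j • (fun y : X => (∏ i, a j i (y i)) * W y) -
        M • (fun y : X => (∏ i, (((y i).val : ℝ) + u i) / 2 ^ (n + 1)) * W y) := by
      ext y
      simp only [Pi.mul_apply, Pi.sub_apply, Finset.sum_apply, Pi.smul_apply, smul_eq_mul]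
      rw [sub_mul, Finset.sum_mul, mul_assoc]
      congr 1
      apply Finset.sum_congr rfl
      intro j _
      ring
    rw [hdec, map_sub, map_sum, map_smul, EU_volume d (n + 1) K W hW u]
    simp only [map_smul]
    rw [Pi.sub_apply, Finset.sum_apply]
    have h0 : ∀ j ∈ T, (w j • (gridSys d (n + 1)).EU univ K (fun y : X =>
        (∏ i, a j i (y i)) * W y)) x = 0 := by
      intro j hj
      obtain ⟨s, hs⟩ := hx' j hj
      rw [Pi.smul_apply, EU_prod d (n + 1) K W hW (a j) x s, smul_zero]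
      intro b hb
      rcases lt_or_gt_of_ne hs with h | h
      · apply ha2 j hj s
        · by_contra hc
          push Not at hc
          exact absurd (Nat.div_le_div_right (c := 2 ^ ((n + 1) - K s)) hc) (not_le.2 (hb ▸ h))
        · by_contra hc
          push Not at hc
          exact absurd (Nat.div_le_div_right (c := 2 ^ ((n + 1) - K s)) hc) (not_le.2 h)
      · apply ha1 j hj s
        · by_contra hc
          push Not at hc
          exact absurd (Nat.div_le_div_right (c := 2 ^ ((n + 1) - K s)) hc) (not_le.2 (hb ▸ h))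
        · by_contra hc
          push Not at hc
          exact absurd (Nat.div_le_div_right (c := 2 ^ ((n + 1) - K s)) hc) (not_le.2 h)
    rw [Finset.sum_eq_zero h0, zero_sub, Pi.smul_apply, smul_eq_mul, neg_mul]
    rfl

end Pool.Agent.R476.DM
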