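import Pool.Agent.R476.DM.Grid

set_option autoImplicit false

/-!
# The lower bound in measure modulo functions of fewer variables
-/

namespace Pool.Agent.R476.DM

open Finset MeasureTheory
open Pool.Agent.H730R2.LD

/-- a weighted sum of products of functions of one variable minus `M` times the volume, plus
functions each of which does not depend on one of the variables -/
noncomputable def FF {ι : Type} {d : ℕ} (T : Finset ι) (w : ι → ℝ) (a : ι → Fin d → ℝ → ℝ) (M : ℝ)
    (g : Fin d → (Fin d → ℝ) → ℝ) (x : Fin d → ℝ) : ℝ :=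
  ∑ j ∈ T, w j * ∏ i, a j i (x i) - M * ∏ i, x i + ∑ k, g k x

theorem measurable_FF {ι : Type} {d : ℕ} (T : Finset ι) (w : ι → ℝ) (a : ι → Fin d → ℝ → ℝ) (M : ℝ)
    (g : Fin d → (Fin d → ℝ) → ℝ) (ha : ∀ j i, Measurable (a j i)) (hg : ∀ k, Measurable (g k)) :
    Measurable (FF T w a M g) := by
  unfold FF
  refine Measurable.add (Measurable.sub ?_ ?_) ?_
  · refine Finset.measurable_fun_sum _ fun j _ => Measurable.const_mul ?_ _
    exact Finset.measurable_fun_prod _ fun i _ => (ha j i).comp (measurable_pi_apply i)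
  · refine Measurable.const_mul ?_ _
    exact Finset.measurable_fun_prod _ fun i _ => measurable_pi_apply i
  · exact Finset.measurable_fun_sum _ fun k _ => hg k

/-- **sharp lower bound in measure modulo functions of fewer variables** -/
theorem measure_mod (d : ℕ) (hd : 1 ≤ d) (C : ℝ) :
    ∃ ε : ℝ, 0 < ε ∧ ∃ c : ℝ, 0 < c ∧ ∀ M : ℝ, 2 ≤ M →
      ∀ (ι : Type) (T : Finset ι) (w : ι → ℝ) (P : ι → Fin d → ℝ) (a : ι → Fin d → ℝ → ℝ),
        (T.card : ℝ) ≤ C * M → (∀ j i, Measurable (a j i)) →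
        (∀ j ∈ T, ∀ i, ∀ s t : ℝ, s < P j i → t < P j i → a j i s = a j i t) →
        (∀ j ∈ T, ∀ i, ∀ s t : ℝ, P j i < s → P j i < t → a j i s = a j i t) →
        ∀ g : Fin d → (Fin d → ℝ) → ℝ, (∀ k, Measurable (g k)) →
          (∀ (k : Fin d) (x : Fin d → ℝ) (t : ℝ), g k (Function.update x k t) = g k x) →
        ENNReal.ofReal ε ≤ volume {x : Fin d → ℝ | x ∈ Set.Icc (0 : Fin d → ℝ) 1 ∧
          c * (Real.log M) ^ (((d : ℝ) - 1) / 2) ≤ |FF T w a M g x|} := by
  classical
  obtain ⟨ε, hε, c, hc, hgrid⟩ := grid_abs d hd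
  set C' : ℝ := max C 1 with hC'
  have hC'1 : 1 ≤ C' := le_max_right _ _
  have hC'C : C ≤ C' := le_max_left _ _
  have hC'0 : 0 < C' := by linarith
  have hd0 : (0 : ℝ) < d := by exact_mod_cast hd
  have hα : 0 ≤ ((d : ℝ) - 1) / 2 := by
    have : (1 : ℝ) ≤ d := by exact_mod_cast hd
    linarith
  refine ⟨ε, hε, c * (1 / (4 * C')) * (1 / d) ^ (((d : ℝ) - 1) / 2), by positivity, ?_⟩
  intro M hM ι T w P a hT ham ha1 ha2 g hgm hg
  have hM0 : 0 < M := by linarith
  obtain ⟨n, hn1, hn2, hlogn⟩ := exists_levels C' M hC'1 hM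
  have hcardT : 2 * T.card ≤ 2 ^ n := by
    have : (2 : ℝ) * T.card ≤ 2 ^ n := by
      refine le_trans ?_ hn1
      have : C * M ≤ C' * M := mul_le_mul_of_nonneg_right hC'C hM0.le
      linarith
    exact_mod_cast this
  set θ : ℝ := c * (1 / (4 * C')) * (1 / d) ^ (((d : ℝ) - 1) / 2) *
    (Real.log M) ^ (((d : ℝ) - 1) / 2) with hθ
  -- comparison of the thresholds
  have hM2 : 1 / (4 * C') ≤ M / 2 ^ n := by
    rw [div_le_div_iff₀ (by positivity) (by positivity)]
    linarith
  have hlog0 : 0 ≤ Real.log M := Real.log_nonneg (by linarith)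
  have hpow : (1 / (d : ℝ)) ^ (((d : ℝ) - 1) / 2) * (Real.log M) ^ (((d : ℝ) - 1) / 2) ≤
      ((n : ℝ) / d) ^ (((d : ℝ) - 1) / 2) := by
    rw [← Real.mul_rpow (by positivity) hlog0]
    apply Real.rpow_le_rpow (by positivity) _ hα
    rw [div_mul_eq_mul_div, one_mul]
    exact div_le_div_of_nonneg_right hlogn hd0.le
  have hthr : θ ≤ c * (M / 2 ^ n) * ((n : ℝ) / d) ^ (((d : ℝ) - 1) / 2) := by
    calc θ = c * (1 / (4 * C')) * ((1 / d) ^ (((d : ℝ) - 1) / 2) *
            (Real.log M) ^ (((d : ℝ) - 1) / 2)) := by rw [hθ]; ring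
      _ ≤ c * (M / 2 ^ n) * ((n : ℝ) / d) ^ (((d : ℝ) - 1) / 2) := by
          apply mul_le_mul _ hpow (by positivity) (by positivity)
          exact mul_le_mul_of_nonneg_left hM2 hc.le
  set A : Set (Fin d → ℝ) := {x | θ ≤ |FF T w a M g x|} with hA
  have hAm : MeasurableSet A :=
    measurableSet_le measurable_const (measurable_FF T w a M g ham hgm).abs
  have hvol : volume {x : Fin d → ℝ | x ∈ Set.Icc (0 : Fin d → ℝ) 1 ∧
      θ ≤ |FF T w a M g x|} =
      ∫⁻ x in Set.Icc (0 : Fin d → ℝ) 1, A.indicator 1 x := by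
    rw [lintegral_indicator_one hAm, Measure.restrict_apply hAm]
    congr 1
    ext x
    simp only [Set.mem_setOf_eq, Set.mem_inter_iff, hA]
    exact and_comm
  rw [hvol]
  apply le_lintegral_gridD d (n + 1) _ (measurable_one.indicator hAm)
  intro u
  have h2 : (2 : ENNReal) ^ ((n + 1) * d) = ENNReal.ofReal (2 ^ ((n + 1) * d)) := by
    rw [ENNReal.ofReal_pow (by norm_num)]
    simp
  set pt : (Fin d → Fin (2 ^ (n + 1))) → Fin d → ℝ := fun x i =>
    (((x i).val : ℝ) + u i) / 2 ^ (n + 1) with hpt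
  have hpos : (0 : ℝ) < 2 ^ (n + 1) := by positivity
  have hloc : Loc d n M (fun x => FF T w a M g (pt x)) := by
    have h3 := loc_sum d n T w (fun j i => ⌈P j i * 2 ^ (n + 1) - u i⌉₊)
      (fun j i b => a j i (((b.val : ℝ) + u i) / 2 ^ (n + 1))) (by
        intro j hj i b b' hb hb'
        rw [Nat.lt_ceil] at hb hb'
        apply ha1 j hj i
        · rw [div_lt_iff₀ hpos]; linarith
        · rw [div_lt_iff₀ hpos]; linarith) (by
        intro j hj i b b' hb hb'
        have e1 := Nat.le_ceil (P j i * 2 ^ (n + 1) - u i)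
        have e2 : ((⌈P j i * 2 ^ (n + 1) - u i⌉₊ : ℕ) : ℝ) < (b.val : ℝ) := by exact_mod_cast hb
        have e3 : ((⌈P j i * 2 ^ (n + 1) - u i⌉₊ : ℕ) : ℝ) < (b'.val : ℝ) := by exact_mod_cast hb'
        apply ha2 j hj i
        · rw [lt_div_iff₀ hpos]; linarith
        · rw [lt_div_iff₀ hpos]; linarith) hcardT u M
    have h4 := h3.add_sum (fun k x => g k (pt x)) (by
      intro k x t
      have : pt (Function.update x k t) =
          Function.update (pt x) k (((t.val : ℝ) + u k) / 2 ^ (n + 1)) := by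
        funext i
        by_cases hi : i = k
        · subst hi; simp [hpt]
        · simp [hpt, Function.update_of_ne hi]
      rw [this, hg])
    convert h4 using 1
    funext x
    simp only [FF, Pi.add_apply, Finset.sum_apply, hpt]
  have hg := hgrid n (fun x => FF T w a M g (pt x)) M hM0 hloc
  set D : (Fin d → Fin (2 ^ (n + 1))) → ℝ := fun x => FF T w a M g (pt x) with hD
  have hsum : ∑ x : Fin d → Fin (2 ^ (n + 1)), A.indicator (1 : (Fin d → ℝ) → ENNReal)
      (fun i => (((x i).val : ℝ) + u i) / 2 ^ (n + 1)) =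
      ENNReal.ofReal ((univ.filter (fun x => θ ≤ |D x|)).card : ℝ) := by
    have h1 : ∀ x : Fin d → Fin (2 ^ (n + 1)), A.indicator (1 : (Fin d → ℝ) → ENNReal)
        (fun i => (((x i).val : ℝ) + u i) / 2 ^ (n + 1)) =
        if θ ≤ |D x| then 1 else 0 := by
      intro x
      by_cases hx : θ ≤ |D x|
      · rw [if_pos hx, Set.indicator_of_mem]
        · rfl
        · exact hx
      · rw [if_neg hx, Set.indicator_of_notMem]
        exact hx
    simp only [h1]
    rw [Finset.sum_boole, ENNReal.ofReal_natCast]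
  rw [hsum, h2, ← ENNReal.ofReal_div_of_pos (by positivity)]
  apply ENNReal.ofReal_le_ofReal
  rw [le_div_iff₀ (by positivity)]
  refine hg.trans ?_
  have hsub : (univ.filter (fun x : Fin d → Fin (2 ^ (n + 1)) =>
      c * (M / 2 ^ n) * ((n : ℝ) / d) ^ (((d : ℝ) - 1) / 2) ≤ |D x|)) ⊆
      univ.filter (fun x => θ ≤ |D x|) := by
    intro x hx
    exact Finset.mem_filter.2 ⟨Finset.mem_univ x, hthr.trans (Finset.mem_filter.1 hx).2⟩
  exact_mod_cast Finset.card_le_card hsub

end Pool.Agent.R476.DM
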