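import Pool.Agent.R476.DM.Cub

set_option autoImplicit false

/-!
# The periodic class
-/

namespace Pool.Agent.R476.DM

open Finset MeasureTheory
open Pool.Agent.H730R2.LD

/-- the Bernoulli kernel `1 + 2 ∑ sin (2 π k t) / k` -/
noncomputable def ker (t : ℝ) : ℝ := 1 + 2 * Real.pi * (1 / 2 - Int.fract t)

/-- the convolution with the product kernel -/
noncomputable def conv {d : ℕ} (ψ : (Fin d → ℝ) → ℝ) (z : Fin d → ℝ) : ℝ :=
  ∫ y in Set.Icc (0 : Fin d → ℝ) 1, ψ y * ∏ i, ker (z i - y i)

/-- the factor replacing the indicator of a dyadic interval -/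
noncomputable def eta (R c : ℕ) (t : ℝ) : ℝ :=
  -(1 / (2 * Real.pi)) * (II R c).indicator (fun _ => (1 : ℝ)) t + ((c : ℝ) + 1 / 2) / 2 ^ R / 2 ^ R

/-- `∫_{t ≥ z}` of the indicator -/
noncomputable def beta (R c : ℕ) (z : ℝ) : ℝ := ∫ t in II R c, (if z ≤ t then (1 : ℝ) else 0)

theorem II_meas (R c : ℕ) : MeasurableSet (II R c) := measurableSet_Ico

theorem fin1 : IsFiniteMeasure (volume.restrict (Set.Icc (0 : ℝ) 1)) := by
  constructor
  rw [Measure.restrict_apply_univ, Real.volume_Icc]
  simp

theorem ker_ae (z : ℝ) (hz : z ∈ Set.Icc (0 : ℝ) 1) :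
    ∀ᵐ t ∂(volume.restrict (Set.Icc (0 : ℝ) 1)),
      ker (z - t) = 1 + 2 * Real.pi * (1 / 2 - z + t - (if z ≤ t then (1 : ℝ) else 0)) := by
  have h0 : ∀ᵐ t : ℝ ∂(volume.restrict (Set.Icc (0 : ℝ) 1)), t ≠ 0 ∧ t ≠ z := by
    refine ae_restrict_of_ae ?_
    have h1 : ∀ᵐ t : ℝ, t ≠ 0 := by simp [ae_iff, measure_singleton]
    have h2 : ∀ᵐ t : ℝ, t ≠ z := by simp [ae_iff, measure_singleton]
    filter_upwards [h1, h2] with t a b using ⟨a, b⟩
  have h1 : ∀ᵐ t : ℝ ∂(volume.restrict (Set.Icc (0 : ℝ) 1)), t ∈ Set.Icc (0 : ℝ) 1 :=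
    ae_restrict_mem measurableSet_Icc
  filter_upwards [h0, h1] with t ht ht1
  have ht0 : 0 < t := lt_of_le_of_ne ht1.1 (Ne.symm ht.1)
  unfold ker
  by_cases h : z ≤ t
  · have hlt : z < t := lt_of_le_of_ne h (Ne.symm ht.2)
    have hf : Int.fract (z - t) = z - t + 1 := by
      rw [Int.fract_eq_iff]
      refine ⟨by linarith [hz.1, ht1.2], by linarith, ⟨-1, by push_cast; ring⟩⟩
    rw [hf, if_pos h]
    ring
  · push Not at h
    have hf : Int.fract (z - t) = z - t := by
      rw [Int.fract_eq_self]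
      exact ⟨by linarith, by linarith [hz.2]⟩
    rw [hf, if_neg (not_le.2 h)]
    ring

theorem int_step01 (z : ℝ) (hz : z ∈ Set.Icc (0 : ℝ) 1) :
    ∫ t in Set.Icc (0 : ℝ) 1, (if z ≤ t then (1 : ℝ) else 0) = 1 - z := by
  have h1 : (fun t : ℝ => if z ≤ t then (1 : ℝ) else 0) = (Set.Ici z).indicator (fun _ => (1 : ℝ)) := by
    funext t
    by_cases h : z ≤ t
    · rw [if_pos h, Set.indicator_of_mem]
      exact h
    · rw [if_neg h, Set.indicator_of_notMem]
      exact h
  rw [h1, setIntegral_indicator measurableSet_Ici]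
  have h2 : Set.Icc (0 : ℝ) 1 ∩ Set.Ici z = Set.Icc z 1 := by
    ext t
    constructor
    · rintro ⟨⟨_, h2⟩, h3⟩
      exact ⟨h3, h2⟩
    · rintro ⟨h1, h2⟩
      exact ⟨⟨hz.1.trans h1, h2⟩, h1⟩
  rw [h2, setIntegral_const, measureReal_def, Real.volume_Icc, ENNReal.toReal_ofReal (by linarith [hz.2])]
  simp

theorem int_id01 : ∫ t in Set.Icc (0 : ℝ) 1, t = 1 / 2 := by
  rw [integral_Icc_eq_integral_Ioc, ← intervalIntegral.integral_of_le zero_le_one, integral_id]
  norm_num

theorem int_ind (R : ℕ) (c : Fin (2 ^ R)) (g : ℝ → ℝ) :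
    ∫ t in Set.Icc (0 : ℝ) 1, (II R c.val).indicator (fun _ => (1 : ℝ)) t * g t =
      ∫ t in II R c.val, g t := by
  have h1 : (fun t => (II R c.val).indicator (fun _ => (1 : ℝ)) t * g t) =
      (II R c.val).indicator g := by
    funext t
    by_cases h : t ∈ II R c.val
    · rw [Set.indicator_of_mem h, Set.indicator_of_mem h, one_mul]
    · rw [Set.indicator_of_notMem h, Set.indicator_of_notMem h, zero_mul]
  rw [h1, setIntegral_indicator (II_meas R c.val), Set.inter_eq_right.2 (II_sub R c)]

/-- the one-dimensional identity -/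
theorem int_eta (R : ℕ) (c : Fin (2 ^ R)) (z : ℝ) (hz : z ∈ Set.Icc (0 : ℝ) 1) :
    ∫ t in Set.Icc (0 : ℝ) 1, eta R c.val t * ker (z - t) =
      beta R c.val z + 1 / 2 ^ R * (z - 1 / 2 - 1 / (2 * Real.pi)) := by
  have := fin1
  have hpi : (0 : ℝ) < Real.pi := Real.pi_pos
  set I : ℝ → ℝ := (II R c.val).indicator (fun _ => (1 : ℝ)) with hI
  set S : ℝ → ℝ := fun t => if z ≤ t then (1 : ℝ) else 0 with hS
  set m1 : ℝ := ((c.val : ℝ) + 1 / 2) / 2 ^ R / 2 ^ R with hm1
  have hSm : Measurable S := Measurable.ite (measurableSet_le measurable_const measurable_id)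
    measurable_const measurable_const
  have hIm : Measurable I := measurable_const.indicator (II_meas R c.val)
  have bI : ∀ t, |I t| ≤ 1 := by
    intro t
    by_cases h : t ∈ II R c.val
    · rw [hI, Set.indicator_of_mem h]; simp
    · rw [hI, Set.indicator_of_notMem h]; simp
  have bS : ∀ t, |S t| ≤ 1 := by
    intro t
    simp only [hS]
    split_ifs <;> simp
  have iI : Integrable I (volume.restrict (Set.Icc (0 : ℝ) 1)) :=
    Integrable.of_bound hIm.aestronglyMeasurable 1 (Filter.Eventually.of_forall bI)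
  have iS : Integrable S (volume.restrict (Set.Icc (0 : ℝ) 1)) :=
    Integrable.of_bound hSm.aestronglyMeasurable 1 (Filter.Eventually.of_forall bS)
  have iid : Integrable (fun t : ℝ => t) (volume.restrict (Set.Icc (0 : ℝ) 1)) := by
    refine Integrable.of_bound measurable_id.aestronglyMeasurable 1 ?_
    rw [ae_restrict_iff' measurableSet_Icc]
    exact Filter.Eventually.of_forall fun t ht => by
      rw [Real.norm_eq_abs, abs_of_nonneg ht.1]; exact ht.2
  have iIt : Integrable (fun t : ℝ => I t * t) (volume.restrict (Set.Icc (0 : ℝ) 1)) := by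
    refine Integrable.of_bound (hIm.mul measurable_id).aestronglyMeasurable 1 ?_
    rw [ae_restrict_iff' measurableSet_Icc]
    refine Filter.Eventually.of_forall fun t ht => ?_
    rw [Real.norm_eq_abs, abs_mul]
    exact mul_le_one₀ (bI t) (abs_nonneg _) (by rw [abs_of_nonneg ht.1]; exact ht.2)
  have iIS : Integrable (fun t : ℝ => I t * S t) (volume.restrict (Set.Icc (0 : ℝ) 1)) := by
    refine Integrable.of_bound (hIm.mul hSm).aestronglyMeasurable 1 ?_
    refine Filter.Eventually.of_forall fun t => ?_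
    rw [Real.norm_eq_abs, abs_mul]
    exact mul_le_one₀ (bI t) (abs_nonneg _) (bS t)
  have h1 : ∫ t in Set.Icc (0 : ℝ) 1, eta R c.val t * ker (z - t) =
      ∫ t in Set.Icc (0 : ℝ) 1, ((-(1 / (2 * Real.pi)) * (1 + 2 * Real.pi * (1 / 2 - z))) * I t +
        (-1) * (I t * t) + 1 * (I t * S t) + (m1 * (1 + 2 * Real.pi * (1 / 2 - z)) * 1 +
          (2 * Real.pi * m1) * t + (-(2 * Real.pi * m1)) * S t)) := by
    refine integral_congr_ae ?_
    filter_upwards [ker_ae z hz] with t ht
    rw [ht]
    unfold eta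
    rw [← hI, ← hm1]
    simp only [hS]
    field_simp
    ring
  have e1 : ∫ t in Set.Icc (0 : ℝ) 1, I t = 1 / 2 ^ R := by
    have := int_ind R c (fun _ => 1)
    simp only [mul_one] at this
    rw [this, setIntegral_const, measureReal_def, II_vol]
    simp
  have e2 : ∫ t in Set.Icc (0 : ℝ) 1, I t * t = m1 := by
    rw [int_ind R c (fun t => t), int_id]
  have e3 : ∫ t in Set.Icc (0 : ℝ) 1, I t * S t = beta R c.val z := int_ind R c S
  have e4 : ∫ t in Set.Icc (0 : ℝ) 1, S t = 1 - z := int_step01 z hz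
  have e5 : ∫ t in Set.Icc (0 : ℝ) 1, (1 : ℝ) = 1 := by
    rw [setIntegral_const, measureReal_def, Real.volume_Icc]
    simp
  rw [h1, integral_add, integral_add, integral_add, integral_add, integral_add,
    integral_const_mul, integral_const_mul, integral_const_mul, integral_const_mul,
    integral_const_mul, integral_const_mul, e1, e2, e3, e4, e5, int_id01]
  · field_simp
    ring
  · exact (integrable_const (1 : ℝ)).const_mul _
  · exact iid.const_mul _
  · exact ((integrable_const (1 : ℝ)).const_mul _).add (iid.const_mul _)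
  · exact iS.const_mul _
  · exact iI.const_mul _
  · exact iIt.const_mul _
  · exact (iI.const_mul _).add (iIt.const_mul _)
  · exact iIS.const_mul _
  · exact ((iI.const_mul _).add (iIt.const_mul _)).add (iIS.const_mul _)
  · exact (((integrable_const (1 : ℝ)).const_mul _).add (iid.const_mul _)).add (iS.const_mul _)

/-- sums against functions independent of one coordinate vanish -/
theorem sum_indep_zero (d R : ℕ) (F G : (Fin d → Fin (2 ^ R)) → ℝ) (k : Fin d)
    (hF : (gridSys d R).E k 0 F = 0)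
    (hG : ∀ x y : Fin d → Fin (2 ^ R), (∀ i, i ≠ k → x i = y i) → G x = G y) :
    ∑ x, F x * G x = 0 := by
  have h1 : ∑ x, F x * G x = ∑ x, (G * F) x := by
    refine Finset.sum_congr rfl fun x _ => ?_
    rw [Pi.mul_apply, mul_comm]
  rw [h1, ← (gridSys d R).E_sum k 0, (gridSys d R).E_pull k 0 G F, hF, mul_zero]
  · simp
  · intro a b hab
    exact hG a b ((gridSys_rel d R k 0 a b).1 hab).1

/-- the kernel function -/
noncomputable def psi1 (d R : ℕ) (F : (Fin d → Fin (2 ^ R)) → ℝ) (y : Fin d → ℝ) : ℝ :=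
  ∑ x, F x * ∏ i, eta R (x i).val (y i)

theorem eta_meas (R c : ℕ) : Measurable (eta R c) :=
  ((measurable_const.indicator (II_meas R c)).const_mul _).add_const _

theorem psi1_meas (d R : ℕ) (F : (Fin d → Fin (2 ^ R)) → ℝ) : Measurable (psi1 d R F) :=
  Finset.measurable_fun_sum _ fun _ _ => Measurable.const_mul
    (Finset.measurable_fun_prod _ fun i _ => (eta_meas _ _).comp (measurable_pi_apply i)) _

theorem sum_eta (R : ℕ) (t : ℝ) : ∑ c : Fin (2 ^ R), |eta R c.val t| ≤ 2 := by
  have hpi : (1 : ℝ) ≤ 2 * Real.pi := by linarith [Real.pi_gt_three]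
  have h1 : ∀ c : Fin (2 ^ R), |eta R c.val t| ≤
      (II R c.val).indicator (fun _ => (1 : ℝ)) t + 1 / 2 ^ R := by
    intro c
    unfold eta
    refine (abs_add_le _ _).trans (add_le_add ?_ ?_)
    · rw [abs_mul, abs_neg, abs_of_pos (by positivity)]
      have h0 : 0 ≤ (II R c.val).indicator (fun _ => (1 : ℝ)) t :=
        Set.indicator_nonneg (fun _ _ => zero_le_one) _
      rw [abs_of_nonneg h0]
      refine mul_le_of_le_one_left h0 ?_
      rw [div_le_one (by positivity)]
      exact hpi
    · rw [abs_of_nonneg (by positivity)]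
      apply div_le_div_of_nonneg_right _ (by positivity)
      rw [div_le_one (by positivity)]
      have : (c.val : ℝ) + 1 ≤ 2 ^ R := by exact_mod_cast c.isLt
      linarith
  have h2 : ∑ c : Fin (2 ^ R), (II R c.val).indicator (fun _ => (1 : ℝ)) t ≤ 1 := by
    by_cases h : ∃ c : Fin (2 ^ R), t ∈ II R c.val
    · obtain ⟨c, hc⟩ := h
      rw [Finset.sum_eq_single c]
      · rw [Set.indicator_of_mem hc]
      · intro c' _ hc'
        rw [Set.indicator_of_notMem]
        intro h'
        exact hc' (Fin.ext (II_unique R _ _ t h' hc))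
      · intro h'
        exact absurd (Finset.mem_univ _) h'
    · push Not at h
      rw [Finset.sum_eq_zero]
      · exact zero_le_one
      · intro c _
        rw [Set.indicator_of_notMem (h c)]
  calc ∑ c : Fin (2 ^ R), |eta R c.val t|
      ≤ ∑ c : Fin (2 ^ R), ((II R c.val).indicator (fun _ => (1 : ℝ)) t + 1 / 2 ^ R) :=
        Finset.sum_le_sum fun c _ => h1 c
    _ = (∑ c : Fin (2 ^ R), (II R c.val).indicator (fun _ => (1 : ℝ)) t) + 1 := by
        rw [Finset.sum_add_distrib, Finset.sum_const, Finset.card_univ, Fintype.card_fin,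
          nsmul_eq_mul]
        congr 1
        push_cast
        field_simp
    _ ≤ 2 := by linarith

theorem psi1_abs (d R : ℕ) (F : (Fin d → Fin (2 ^ R)) → ℝ) (hF : ∀ x, |F x| ≤ 1)
    (y : Fin d → ℝ) : |psi1 d R F y| ≤ 2 ^ d := by
  calc |psi1 d R F y| ≤ ∑ x : Fin d → Fin (2 ^ R), |F x * ∏ i, eta R (x i).val (y i)| :=
        Finset.abs_sum_le_sum_abs _ _
    _ ≤ ∑ x : Fin d → Fin (2 ^ R), ∏ i, |eta R (x i).val (y i)| := by
        refine Finset.sum_le_sum fun x _ => ?_
        rw [abs_mul, Finset.abs_prod]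
        exact mul_le_of_le_one_left (Finset.prod_nonneg fun _ _ => abs_nonneg _) (hF x)
    _ = ∏ i : Fin d, ∑ c : Fin (2 ^ R), |eta R c.val (y i)| := by
        rw [Finset.prod_univ_sum, Fintype.piFinset_univ]
    _ ≤ ∏ _i : Fin d, (2 : ℝ) :=
        Finset.prod_le_prod (fun i _ => Finset.sum_nonneg fun _ _ => abs_nonneg _)
          fun i _ => sum_eta R (y i)
    _ = 2 ^ d := by simp

theorem ker_meas : Measurable ker :=
  ((measurable_const.sub measurable_fract).const_mul _).const_add _

theorem ker_abs (t : ℝ) : |ker t| ≤ 1 + Real.pi := by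
  have hpi := Real.pi_pos
  have h1 := Int.fract_nonneg t
  have h2 := (Int.fract_lt_one t).le
  unfold ker
  rw [abs_le]
  constructor <;> nlinarith

/-- **the primitive of a step function with mean zero in every variable is in the periodic
class** -/
theorem prim_eq_conv (d R : ℕ) (F : (Fin d → Fin (2 ^ R)) → ℝ)
    (hF : ∀ k : Fin d, (gridSys d R).E k 0 F = 0) (z : Fin d → ℝ)
    (hz : z ∈ Set.Icc (0 : Fin d → ℝ) 1) : prim (stp d R F) z = conv (psi1 d R F) z := by
  classical
  have hz1 : ∀ i, z i ∈ Set.Icc (0 : ℝ) 1 := fun i => ⟨hz.1 i, hz.2 i⟩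
  -- the primitive
  have h1 : prim (stp d R F) z = ∑ x, F x * ∏ i, beta R (x i).val (z i) := by
    rw [prim_eq _ z hz.1, stp_int]
    · refine Finset.sum_congr rfl fun x _ => ?_
      congr 1
      unfold beta
      rw [← setInt_prod d R x (fun i t => if z i ≤ t then (1 : ℝ) else 0)]
      congr 1
      funext y
      rw [Finset.prod_ite_zero]
      simp
    · exact Integrable.of_bound (measurable_step z).aestronglyMeasurable 1
        (Filter.Eventually.of_forall fun y => by rw [Real.norm_eq_abs]; exact abs_step_le _ y)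
  -- the convolution
  have hIcc : Set.Icc (0 : Fin d → ℝ) 1 = Set.pi Set.univ fun _ => Set.Icc (0 : ℝ) 1 := by
    rw [Set.pi_univ_Icc]; rfl
  have h2 : conv (psi1 d R F) z = ∑ x, F x * ∏ i, (beta R (x i).val (z i) +
      1 / 2 ^ R * (z i - 1 / 2 - 1 / (2 * Real.pi))) := by
    unfold conv
    have h3 : (fun y : Fin d → ℝ => psi1 d R F y * ∏ i, ker (z i - y i)) = fun y =>
        ∑ x : Fin d → Fin (2 ^ R), F x * ∏ i, (eta R (x i).val (y i) * ker (z i - y i)) := by
      funext y
      unfold psi1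
      rw [Finset.sum_mul]
      refine Finset.sum_congr rfl fun x _ => ?_
      rw [Finset.prod_mul_distrib]
      ring
    rw [h3, integral_finsetSum]
    · refine Finset.sum_congr rfl fun x _ => ?_
      rw [integral_const_mul]
      congr 1
      rw [hIcc, volume_pi, Measure.restrict_pi_pi, integral_fintype_prod_eq_prod
        (fun i t => eta R (x i).val t * ker (z i - t))]
      exact Finset.prod_congr rfl fun i _ => int_eta R (x i) (z i) (hz1 i)
    · intro x _
      refine Integrable.const_mul ?_ _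
      refine Integrable.of_bound ?_ (∏ _i : Fin d, 2 * (1 + Real.pi)) ?_
      · refine Measurable.aestronglyMeasurable ?_
        refine Finset.measurable_fun_prod _ fun i _ => Measurable.mul ?_ ?_
        · exact (eta_meas _ _).comp (measurable_pi_apply i)
        · exact ker_meas.comp ((measurable_pi_apply i).const_sub _)
      · refine Filter.Eventually.of_forall fun y => ?_
        rw [Real.norm_eq_abs, Finset.abs_prod]
        refine Finset.prod_le_prod (fun _ _ => abs_nonneg _) fun i _ => ?_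
        rw [abs_mul]
        refine mul_le_mul ?_ (ker_abs _) (abs_nonneg _) (by norm_num)
        exact (Finset.single_le_sum (f := fun c : Fin (2 ^ R) => |eta R c.val (y i)|)
          (fun _ _ => abs_nonneg _) (Finset.mem_univ (x i))).trans (sum_eta R (y i))
  rw [h1, h2]
  have h4 : ∑ x, F x * ∏ i, (beta R (x i).val (z i) +
      1 / 2 ^ R * (z i - 1 / 2 - 1 / (2 * Real.pi))) =
      ∑ S ∈ (univ : Finset (Fin d)).powerset, ∑ x : Fin d → Fin (2 ^ R), F x *
        ((∏ i ∈ S, beta R (x i).val (z i)) *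
          ∏ i ∈ univ \ S, (1 / 2 ^ R * (z i - 1 / 2 - 1 / (2 * Real.pi)))) := by
    rw [Finset.sum_comm]
    refine Finset.sum_congr rfl fun x _ => ?_
    rw [Finset.prod_add, Finset.mul_sum]
  rw [h4, Finset.sum_eq_single univ]
  · refine Finset.sum_congr rfl fun x _ => ?_
    simp
  · intro S _ hS
    obtain ⟨k, hk⟩ : ∃ k, k ∉ S := by
      by_contra h
      push Not at h
      exact hS (Finset.eq_univ_iff_forall.2 h)
    apply sum_indep_zero d R F _ k (hF k)
    intro x y hxy
    congr 1
    refine Finset.prod_congr rfl fun i hi => ?_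
    have hik : i ≠ k := fun h => hk (h ▸ hi)
    rw [hxy i hik]
  · intro h
    exact absurd (Finset.mem_powerset.2 (Finset.subset_univ _)) h

end Pool.Agent.R476.DM
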