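import Pool.Agent.R476.DM.Per
import Pool.Agent.H739R3.PLp.Assemble

set_option autoImplicit false

/-!
# The kernel of the periodic class and the periodic intervals, one variable
-/

namespace Pool.Agent.R476.DM

open Finset MeasureTheory
open Pool.Agent.H739R3.PLp (LD cube measurableSet_cube mem_cube measurable_LD abs_LD_le)

/-- Lebesgue measure on `[0,1)` -/
noncomputable def mu1 : Measure ℝ := volume.restrict (Set.Ico 0 1)

instance prob_mu1 : IsProbabilityMeasure mu1 := by
  constructor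
  unfold mu1
  rw [Measure.restrict_apply_univ, Real.volume_Ico]
  simp

/-- Lebesgue measure on `[0,1)^d` -/
noncomputable def mud (d : ℕ) : Measure (Fin d → ℝ) := Measure.pi fun _ => mu1

instance prob_mud (d : ℕ) : IsProbabilityMeasure (mud d) := by
  unfold mud
  infer_instance

theorem mud_cube (d : ℕ) : volume.restrict (cube d) = mud d := by
  unfold cube mud mu1
  rw [volume_pi, Measure.restrict_pi_pi]

theorem mud_Icc (d : ℕ) : volume.restrict (Set.Icc (0 : Fin d → ℝ) 1) = mud d := by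
  have hIcc : Set.Icc (0 : Fin d → ℝ) 1 = Set.pi Set.univ fun _ => Set.Icc (0 : ℝ) 1 := by
    rw [Set.pi_univ_Icc]; rfl
  rw [hIcc, volume_pi, Measure.restrict_pi_pi]
  unfold mud mu1
  congr 1
  funext i
  exact (Measure.restrict_congr_set Ico_ae_eq_Icc).symm

theorem ae_mu1 : ∀ᵐ t ∂mu1, t ∈ Set.Ico (0 : ℝ) 1 := ae_restrict_mem measurableSet_Ico

theorem ae_mud (d : ℕ) : ∀ᵐ x ∂(mud d), ∀ i, x i ∈ Set.Ico (0 : ℝ) 1 := by
  rw [← mud_cube]
  filter_upwards [ae_restrict_mem (μ := volume) (measurableSet_cube (d := d))] with x hx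
  exact mem_cube hx

/-- indicator of a periodic interval -/
noncomputable def ph (x y z : ℝ) : ℝ :=
  if (x ≤ y ∧ x ≤ z ∧ z < y) ∨ (y < x ∧ (z < y ∨ x ≤ z)) then (1 : ℝ) else 0

/-- length of a periodic interval -/
noncomputable def pl (x y : ℝ) : ℝ := if x ≤ y then y - x else 1 - x + y

/-- the integral of the indicator over the second end point -/
noncomputable def et (t z : ℝ) : ℝ := (1 - z) - (if z < t then (1 : ℝ) else 0) + t

theorem ph_eq (x y z : ℝ) (hz : z < 1) (hx : 0 ≤ x) (hy : 0 ≤ y) :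
    ph x y z = (if z < y then (1 : ℝ) else 0) - (if z < x then (1 : ℝ) else 0) +
      (if y < x then (1 : ℝ) else 0) := by
  unfold ph
  rw [Pool.Agent.H739R3.PLp.piece_ind x y z hz hx hy]
  simp only [Fin.sum_univ_three, Pool.Agent.H739R3.PLp.co, Pool.Agent.H739R3.PLp.wt]
  simp only [Matrix.cons_val_zero, Matrix.cons_val_one, Matrix.cons_val, if_pos hz]
  ring

theorem pl_eq (x y : ℝ) : pl x y = y - x + (if y < x then (1 : ℝ) else 0) := by
  unfold pl
  by_cases h : x ≤ y
  · rw [if_pos h, if_neg (not_lt.2 h)]; ring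
  · rw [if_neg h, if_pos (not_le.1 h)]; ring

theorem meas_gt (z : ℝ) : Measurable (fun a : ℝ => if z < a then (1 : ℝ) else 0) :=
  Measurable.ite measurableSet_Ioi measurable_const measurable_const

theorem meas_lt (y : ℝ) : Measurable (fun a : ℝ => if a < y then (1 : ℝ) else 0) :=
  Measurable.ite measurableSet_Iio measurable_const measurable_const

theorem abs_ite_le (p : Prop) [Decidable p] : |(if p then (1 : ℝ) else 0)| ≤ 1 := by
  split_ifs <;> simp

theorem int_gt (z : ℝ) (hz : z ∈ Set.Icc (0 : ℝ) 1) :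
    ∫ a, (if z < a then (1 : ℝ) else 0) ∂mu1 = 1 - z := by
  have h1 : (fun a : ℝ => if z < a then (1 : ℝ) else 0) =
      (Set.Ioi z).indicator (fun _ => (1 : ℝ)) := by
    funext a
    by_cases h : z < a
    · rw [if_pos h, Set.indicator_of_mem]; exact h
    · rw [if_neg h, Set.indicator_of_notMem]; exact h
  unfold mu1
  rw [h1, setIntegral_indicator measurableSet_Ioi]
  have h2 : Set.Ico (0 : ℝ) 1 ∩ Set.Ioi z = Set.Ioo z 1 := by
    ext t
    constructor
    · rintro ⟨⟨_, h2⟩, h3⟩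
      exact ⟨h3, h2⟩
    · rintro ⟨h1, h2⟩
      exact ⟨⟨hz.1.trans h1.le, h2⟩, h1⟩
  rw [h2, setIntegral_const, measureReal_def, Real.volume_Ioo,
    ENNReal.toReal_ofReal (by linarith [hz.2])]
  simp

theorem int_lt (y : ℝ) (hy : y ∈ Set.Icc (0 : ℝ) 1) :
    ∫ a, (if a < y then (1 : ℝ) else 0) ∂mu1 = y := by
  have h1 : (fun a : ℝ => if a < y then (1 : ℝ) else 0) =
      (Set.Iio y).indicator (fun _ => (1 : ℝ)) := by
    funext a
    by_cases h : a < y
    · rw [if_pos h, Set.indicator_of_mem]; exact h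
    · rw [if_neg h, Set.indicator_of_notMem]; exact h
  unfold mu1
  rw [h1, setIntegral_indicator measurableSet_Iio]
  have h2 : Set.Ico (0 : ℝ) 1 ∩ Set.Iio y = Set.Ico 0 y := by
    ext t
    constructor
    · rintro ⟨⟨h1, _⟩, h3⟩
      exact ⟨h1, h3⟩
    · rintro ⟨h1, h2⟩
      exact ⟨⟨h1, lt_of_lt_of_le h2 hy.2⟩, h2⟩
  rw [h2, setIntegral_const, measureReal_def, Real.volume_Ico,
    ENNReal.toReal_ofReal (by linarith [hy.1])]
  simp

theorem int_idm : ∫ a, a ∂mu1 = 1 / 2 := by
  unfold mu1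
  rw [integral_Ico_eq_integral_Ioo, ← integral_Ioc_eq_integral_Ioo,
    ← intervalIntegral.integral_of_le zero_le_one, integral_id]
  norm_num

theorem ibd (f : ℝ → ℝ) (hm : Measurable f) (C : ℝ) (h : ∀ t, |f t| ≤ C) : Integrable f mu1 :=
  Integrable.of_bound hm.aestronglyMeasurable C (Filter.Eventually.of_forall h)

theorem iidm : Integrable (fun t : ℝ => t) mu1 := by
  refine Integrable.of_bound measurable_id.aestronglyMeasurable 1 ?_
  filter_upwards [ae_mu1] with t ht
  rw [Real.norm_eq_abs, abs_of_nonneg ht.1]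
  exact ht.2.le

theorem int_ph (y z : ℝ) (hy : y ∈ Set.Ico (0 : ℝ) 1) (hz : z ∈ Set.Ico (0 : ℝ) 1) :
    ∫ a, ph y a z ∂mu1 = et y z := by
  have h1 : ∫ a, ph y a z ∂mu1 = ∫ a, ((if z < a then (1 : ℝ) else 0) +
      (-(if z < y then (1 : ℝ) else 0)) + (if a < y then (1 : ℝ) else 0)) ∂mu1 := by
    refine integral_congr_ae ?_
    filter_upwards [ae_mu1] with a ha
    rw [ph_eq y a z hz.2 hy.1 ha.1]
    ring
  rw [h1, integral_add, integral_add, int_gt z ⟨hz.1, hz.2.le⟩, int_lt y ⟨hy.1, hy.2.le⟩,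
    integral_const]
  · unfold et
    simp
    ring
  · exact ibd _ (meas_gt z) 1 fun _ => abs_ite_le _
  · exact integrable_const _
  · exact (ibd _ (meas_gt z) 1 fun _ => abs_ite_le _).add (integrable_const _)
  · exact ibd _ (meas_lt y) 1 fun _ => abs_ite_le _

theorem int_pl (y : ℝ) (hy : y ∈ Set.Ico (0 : ℝ) 1) : ∫ a, pl y a ∂mu1 = 1 / 2 := by
  have h1 : ∫ a, pl y a ∂mu1 = ∫ a, (a + (-y) + (if a < y then (1 : ℝ) else 0)) ∂mu1 := by
    congr 1
    funext a
    rw [pl_eq]
    ring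
  rw [h1, integral_add, integral_add, int_idm, int_lt y ⟨hy.1, hy.2.le⟩, integral_const]
  · simp
  · exact iidm
  · exact integrable_const _
  · exact iidm.add (integrable_const _)
  · exact ibd _ (meas_lt y) 1 fun _ => abs_ite_le _

theorem et_meas (z : ℝ) : Measurable (fun t => et t z) :=
  (measurable_const.sub (meas_gt z)).add measurable_id

theorem int_et (z : ℝ) (hz : z ∈ Set.Ico (0 : ℝ) 1) : ∫ x, et x z ∂mu1 = 1 / 2 := by
  unfold et
  rw [integral_add, integral_sub, int_gt z ⟨hz.1, hz.2.le⟩, int_idm, integral_const]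
  · simp
  · exact integrable_const _
  · exact ibd _ (meas_gt z) 1 fun _ => abs_ite_le _
  · exact (integrable_const _).sub (ibd _ (meas_gt z) 1 fun _ => abs_ite_le _)
  · exact iidm

theorem ker_eq (y z : ℝ) (hy : y ∈ Set.Ico (0 : ℝ) 1) (hz : z ∈ Set.Ico (0 : ℝ) 1) :
    ker (z - y) = 2 * Real.pi * et y z + (2 - 2 * Real.pi) * (1 / 2) := by
  unfold ker et
  by_cases h : z < y
  · have hf : Int.fract (z - y) = z - y + 1 := by
      rw [Int.fract_eq_iff]
      refine ⟨by linarith [hz.1, hy.2], by linarith, ⟨-1, by push_cast; ring⟩⟩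
    rw [hf, if_pos h]
    ring
  · have h' := not_lt.1 h
    have hf : Int.fract (z - y) = z - y := by
      rw [Int.fract_eq_self]
      exact ⟨by linarith, by linarith [hz.2, hy.1]⟩
    rw [hf, if_neg h]
    ring

/-- the kernel has integral `1` -/
theorem int_ker (y : ℝ) (hy : y ∈ Set.Ico (0 : ℝ) 1) : ∫ z, ker (z - y) ∂mu1 = 1 := by
  have h1 : ∫ z, ker (z - y) ∂mu1 = ∫ z, ((1 + 2 * Real.pi * (1 / 2 + y)) +
      (-(2 * Real.pi)) * z + (-(2 * Real.pi)) * (if z < y then (1 : ℝ) else 0)) ∂mu1 := by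
    refine integral_congr_ae ?_
    filter_upwards [ae_mu1] with z hz
    rw [ker_eq y z hy hz]
    unfold et
    ring
  rw [h1, integral_add, integral_add, integral_const_mul, integral_const_mul, int_idm,
    int_lt y ⟨hy.1, hy.2.le⟩, integral_const]
  · simp
    ring
  · exact integrable_const _
  · exact iidm.const_mul _
  · exact (integrable_const _).add (iidm.const_mul _)
  · exact (ibd _ (meas_lt y) 1 fun _ => abs_ite_le _).const_mul _

end Pool.Agent.R476.DM
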