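import Pool.Agent.R476.DM.PerOne

set_option autoImplicit false

/-!
# The dual function of the periodic class and the periodic discrepancy
-/

namespace Pool.Agent.R476.DM

open Finset MeasureTheory
open Pool.Agent.H739R3.PLp (LD cube measurableSet_cube mem_cube measurable_LD abs_LD_le)

/-- take the coordinates in `S` from `y` and the others from `x` -/
def mix {d : ℕ} (S : Finset (Fin d)) (y x : Fin d → ℝ) : Fin d → ℝ :=
  fun i => if i ∈ S then y i else x i

theorem measurable_mix {d : ℕ} (S : Finset (Fin d)) :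
    Measurable (fun p : (Fin d → ℝ) × (Fin d → ℝ) => mix S p.1 p.2) := by
  refine measurable_pi_lambda _ fun i => ?_
  unfold mix
  by_cases h : i ∈ S
  · simp only [h, if_true]
    exact (measurable_pi_apply i).comp measurable_fst
  · simp only [h, if_false]
    exact (measurable_pi_apply i).comp measurable_snd

/-- the mixed point is uniformly distributed -/
theorem mix_mp {d : ℕ} (S : Finset (Fin d)) :
    MeasurePreserving (fun p : (Fin d → ℝ) × (Fin d → ℝ) => mix S p.1 p.2)
      ((mud d).prod (mud d)) (mud d) := by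
  refine ⟨measurable_mix S, ?_⟩
  unfold mud
  symm
  refine Measure.pi_eq fun s hs => ?_
  rw [Measure.map_apply (measurable_mix S) (MeasurableSet.univ_pi hs)]
  have h1 : (fun p : (Fin d → ℝ) × (Fin d → ℝ) => mix S p.1 p.2) ⁻¹' Set.pi Set.univ s =
      (Set.pi Set.univ fun i => if i ∈ S then s i else Set.univ) ×ˢ
        (Set.pi Set.univ fun i => if i ∈ S then Set.univ else s i) := by
    ext p
    simp only [Set.mem_preimage, Set.mem_pi, Set.mem_univ, forall_true_left, Set.mem_prod, mix]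
    constructor
    · intro h
      refine ⟨fun i => ?_, fun i => ?_⟩
      · have := h i
        by_cases hi : i ∈ S
        · simpa [hi] using this
        · simp [hi]
      · have := h i
        by_cases hi : i ∈ S
        · simp [hi]
        · simpa [hi] using this
    · rintro ⟨h1, h2⟩ i
      have a1 := h1 i
      have a2 := h2 i
      by_cases hi : i ∈ S
      · simpa [hi] using a1
      · simpa [hi] using a2
  rw [h1, Measure.prod_prod, Measure.pi_pi, Measure.pi_pi, ← Finset.prod_mul_distrib]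
  refine Finset.prod_congr rfl fun i _ => ?_
  by_cases hi : i ∈ S
  · simp [hi]
  · simp [hi]

theorem LD_eq_prod {d : ℕ} (P : Finset (Fin d → ℝ)) (N : ℕ) (x y : Fin d → ℝ) :
    LD P N x y = (∑ z ∈ P, ∏ i, ph (x i) (y i) (z i)) - N * ∏ i, pl (x i) (y i) := by
  classical
  unfold LD
  congr 1
  refine Finset.sum_congr rfl fun z _ => ?_
  unfold ph
  rw [Finset.prod_ite_zero]
  simp only [Finset.mem_univ, forall_true_left, Finset.prod_const_one]

theorem ph_meas (x z : ℝ) : Measurable (fun a => ph x a z) := by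
  unfold ph
  refine Measurable.ite ?_ measurable_const measurable_const
  have : {a : ℝ | (x ≤ a ∧ x ≤ z ∧ z < a) ∨ (a < x ∧ (z < a ∨ x ≤ z))} =
      (Set.Ici x ∩ ({a | x ≤ z} ∩ Set.Ioi z)) ∪ (Set.Iio x ∩ (Set.Ioi z ∪ {a | x ≤ z})) := by
    ext a; rfl
  rw [this]
  exact (measurableSet_Ici.inter ((MeasurableSet.const _).inter measurableSet_Ioi)).union
    (measurableSet_Iio.inter (measurableSet_Ioi.union (MeasurableSet.const _)))

theorem pl_meas (x : ℝ) : Measurable (fun a => pl x a) := by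
  unfold pl
  refine Measurable.ite measurableSet_Ici ?_ ?_
  · exact measurable_id.sub_const _
  · exact measurable_id.const_add _

theorem ph_abs (x y z : ℝ) : |ph x y z| ≤ 1 := abs_ite_le _

theorem pl_abs (x y : ℝ) (hx : x ∈ Set.Ico (0 : ℝ) 1) (hy : y ∈ Set.Ico (0 : ℝ) 1) :
    |pl x y| ≤ 1 := by
  unfold pl
  obtain ⟨a, b⟩ := hx
  obtain ⟨c, e⟩ := hy
  split_ifs with h
  · rw [abs_le]; constructor <;> linarith
  · push Not at h
    rw [abs_le]; constructor <;> linarith

theorem et_abs (x z : ℝ) (hx : x ∈ Set.Ico (0 : ℝ) 1) (hz : z ∈ Set.Ico (0 : ℝ) 1) :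
    |et x z| ≤ 2 := by
  unfold et
  obtain ⟨a, b⟩ := hx
  obtain ⟨c, e⟩ := hz
  split_ifs with h
  · rw [abs_le]; constructor <;> linarith
  · rw [abs_le]; constructor <;> linarith

/-- the inner integral -/
theorem inner_int {d : ℕ} (P : Finset (Fin d → ℝ)) (N : ℕ)
    (hP : ∀ z ∈ P, ∀ i, z i ∈ Set.Ico (0 : ℝ) 1) (x : Fin d → ℝ)
    (hx : ∀ i, x i ∈ Set.Ico (0 : ℝ) 1) :
    ∫ a, LD P N x a ∂(mud d) = (∑ z ∈ P, ∏ i, et (x i) (z i)) - N * (1 / 2) ^ d := by
  have h0 : (fun a => LD P N x a) = fun a =>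
      (∑ z ∈ P, ∏ i, ph (x i) (a i) (z i)) - N * ∏ i, pl (x i) (a i) := by
    funext a
    rw [LD_eq_prod]
  have hi1 : ∀ z ∈ P, Integrable (fun a : Fin d → ℝ => ∏ i, ph (x i) (a i) (z i)) (mud d) := by
    intro z _
    refine Integrable.of_bound (Measurable.aestronglyMeasurable
      (Finset.measurable_fun_prod _ fun i _ => (ph_meas (x i) (z i)).comp
        (measurable_pi_apply i))) 1 (Filter.Eventually.of_forall fun a => ?_)
    rw [Real.norm_eq_abs, Finset.abs_prod]
    exact Finset.prod_le_one (fun _ _ => abs_nonneg _) fun i _ => ph_abs _ _ _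
  have hi2 : Integrable (fun a : Fin d → ℝ => ∏ i, pl (x i) (a i)) (mud d) := by
    refine Integrable.of_bound (Measurable.aestronglyMeasurable
      (Finset.measurable_fun_prod _ fun i _ => (pl_meas (x i)).comp
        (measurable_pi_apply i))) 1 ?_
    filter_upwards [ae_mud d] with a ha
    rw [Real.norm_eq_abs, Finset.abs_prod]
    exact Finset.prod_le_one (fun _ _ => abs_nonneg _) fun i _ => pl_abs _ _ (hx i) (ha i)
  rw [h0, integral_sub (integrable_finsetSum _ hi1) (hi2.const_mul _), integral_finsetSum _ hi1,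
    integral_const_mul]
  unfold mud
  congr 1
  · refine Finset.sum_congr rfl fun z hz => ?_
    rw [integral_fintype_prod_eq_prod (fun i a => ph (x i) a (z i))]
    exact Finset.prod_congr rfl fun i _ => int_ph (x i) (z i) (hx i) (hP z hz i)
  · congr 1
    rw [integral_fintype_prod_eq_prod (fun i a => pl (x i) a)]
    rw [Finset.prod_congr rfl fun i _ => int_pl (x i) (hx i)]
    simp

/-- the double integral -/
theorem double_int {d : ℕ} (P : Finset (Fin d → ℝ)) (N : ℕ)
    (hP : ∀ z ∈ P, ∀ i, z i ∈ Set.Ico (0 : ℝ) 1) (S : Finset (Fin d)) (y : Fin d → ℝ)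
    (hy : ∀ i, y i ∈ Set.Ico (0 : ℝ) 1) :
    ∫ x, ∫ a, LD P N (mix S y x) a ∂(mud d) ∂(mud d) =
      (∑ z ∈ P, ∏ i, (if i ∈ S then et (y i) (z i) else 1 / 2)) - N * (1 / 2) ^ d := by
  have hmix : ∀ x : Fin d → ℝ, (∀ i, x i ∈ Set.Ico (0 : ℝ) 1) →
      ∀ i, mix S y x i ∈ Set.Ico (0 : ℝ) 1 := by
    intro x hx i
    unfold mix
    split_ifs
    · exact hy i
    · exact hx i
  have h1 : ∫ x, ∫ a, LD P N (mix S y x) a ∂(mud d) ∂(mud d) =
      ∫ x, ((∑ z ∈ P, ∏ i, (fun (i : Fin d) (t : ℝ) =>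
        if i ∈ S then et (y i) (z i) else et t (z i)) i (x i)) - N * (1 / 2) ^ d) ∂(mud d) := by
    refine integral_congr_ae ?_
    filter_upwards [ae_mud d] with x hx
    rw [inner_int P N hP _ (hmix x hx)]
    congr 1
    refine Finset.sum_congr rfl fun z _ => Finset.prod_congr rfl fun i _ => ?_
    unfold mix
    split_ifs <;> rfl
  have hm : ∀ (z : Fin d → ℝ) (i : Fin d),
      Measurable (fun t : ℝ => if i ∈ S then et (y i) (z i) else et t (z i)) := by
    intro z i
    by_cases hi : i ∈ S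
    · simp only [hi, if_true]; exact measurable_const
    · simp only [hi, if_false]; exact et_meas (z i)
  have hi1 : ∀ z ∈ P, Integrable (fun x : Fin d → ℝ => ∏ i, (fun (i : Fin d) (t : ℝ) =>
        if i ∈ S then et (y i) (z i) else et t (z i)) i (x i)) (mud d) := by
    intro z hz
    refine Integrable.of_bound (Measurable.aestronglyMeasurable
      (Finset.measurable_fun_prod _ fun i _ => (hm z i).comp
        (measurable_pi_apply i))) (∏ _i : Fin d, 2) ?_
    filter_upwards [ae_mud d] with x hx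
    rw [Real.norm_eq_abs, Finset.abs_prod]
    refine Finset.prod_le_prod (fun _ _ => abs_nonneg _) fun i _ => ?_
    split_ifs
    · exact et_abs _ _ (hy i) (hP z hz i)
    · exact et_abs _ _ (hx i) (hP z hz i)
  rw [h1, integral_sub (integrable_finsetSum _ hi1) (integrable_const _),
    integral_finsetSum _ hi1]
  congr 1
  · unfold mud
    refine Finset.sum_congr rfl fun z hz => ?_
    rw [integral_fintype_prod_eq_prod (fun (i : Fin d) (t : ℝ) =>
        if i ∈ S then et (y i) (z i) else et t (z i))]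
    refine Finset.prod_congr rfl fun i _ => ?_
    by_cases hi : i ∈ S
    · simp [hi]
    · simp only [hi, if_false]
      exact int_et (z i) (hP z hz i)
  · simp

/-- the coefficients -/
noncomputable def cf {d : ℕ} (S : Finset (Fin d)) : ℝ :=
  (∏ _i ∈ S, (2 * Real.pi)) * ∏ _i ∈ univ \ S, (2 - 2 * Real.pi)

/-- **the dual function is a combination of averages of the periodic discrepancy** -/
theorem G_eq {d : ℕ} (P : Finset (Fin d → ℝ)) (N : ℕ)
    (hP : ∀ z ∈ P, ∀ i, z i ∈ Set.Ico (0 : ℝ) 1) (y : Fin d → ℝ)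
    (hy : ∀ i, y i ∈ Set.Ico (0 : ℝ) 1) :
    (∑ z ∈ P, ∏ i, ker (z i - y i)) - N =
      ∑ S ∈ (univ : Finset (Fin d)).powerset,
        cf S * ∫ x, ∫ a, LD P N (mix S y x) a ∂(mud d) ∂(mud d) := by
  classical
  have hprod : ∀ (u : Fin d → ℝ), ∑ S ∈ (univ : Finset (Fin d)).powerset,
      cf S * ∏ i, (if i ∈ S then u i else 1 / 2) =
      ∏ i, (2 * Real.pi * u i + (2 - 2 * Real.pi) * (1 / 2)) := by
    intro u
    rw [Finset.prod_add]
    refine Finset.sum_congr rfl fun S _ => ?_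
    have h1 : ∏ i, (if i ∈ S then u i else (1 / 2 : ℝ)) =
        (∏ i ∈ S, u i) * ∏ _i ∈ univ \ S, (1 / 2 : ℝ) := by
      rw [← Finset.prod_sdiff (Finset.subset_univ S), mul_comm]
      congr 1
      · exact Finset.prod_congr rfl fun i hi => if_pos hi
      · exact Finset.prod_congr rfl fun i hi => if_neg (Finset.mem_sdiff.1 hi).2
    have h5 : ∏ i ∈ S, (2 * Real.pi * u i) = (∏ _i ∈ S, (2 * Real.pi)) * ∏ i ∈ S, u i :=
      Finset.prod_mul_distrib
    have h6 : ∏ _i ∈ univ \ S, ((2 - 2 * Real.pi) * (1 / 2)) =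
        (∏ _i ∈ univ \ S, (2 - 2 * Real.pi)) * ∏ _i ∈ univ \ S, (1 / 2 : ℝ) :=
      Finset.prod_mul_distrib
    rw [h1, h5, h6]
    unfold cf
    generalize (∏ _i ∈ S, (2 * Real.pi)) = a1
    generalize (∏ _i ∈ univ \ S, (2 - 2 * Real.pi)) = a2
    ring
  have h2 : ∀ S ∈ (univ : Finset (Fin d)).powerset,
      cf S * ∫ x, ∫ a, LD P N (mix S y x) a ∂(mud d) ∂(mud d) =
      (∑ z ∈ P, cf S * ∏ i, (if i ∈ S then et (y i) (z i) else 1 / 2)) -
        N * (cf S * ∏ i : Fin d, (if i ∈ S then (fun _ : Fin d => (1 / 2 : ℝ)) i else 1 / 2)) := by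
    intro S _
    rw [double_int P N hP S y hy, mul_sub, Finset.mul_sum]
    congr 1
    have h3 : ∏ i : Fin d, (if i ∈ S then (fun _ : Fin d => (1 / 2 : ℝ)) i else 1 / 2) =
        (1 / 2) ^ d := by
      simp
    rw [h3]
    ring
  rw [Finset.sum_congr rfl h2, Finset.sum_sub_distrib, Finset.sum_comm, ← Finset.mul_sum,
    hprod (fun _ => 1 / 2)]
  have h4 : ∏ _i : Fin d, (2 * Real.pi * (1 / 2) + (2 - 2 * Real.pi) * (1 / 2)) = (1 : ℝ) := by
    refine Finset.prod_eq_one fun i _ => ?_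
    ring
  rw [h4, mul_one]
  congr 1
  refine Finset.sum_congr rfl fun z hz => ?_
  rw [hprod (fun i => et (y i) (z i))]
  exact Finset.prod_congr rfl fun i _ => ker_eq (y i) (z i) (hy i) (hP z hz i)

/-- the `L_1` norm of the dual function -/
theorem G_norm {d : ℕ} (P : Finset (Fin d → ℝ)) (N : ℕ)
    (hP : ∀ z ∈ P, ∀ i, z i ∈ Set.Ico (0 : ℝ) 1) :
    ∫⁻ y, ‖(∑ z ∈ P, ∏ i, ker (z i - y i)) - N‖ₑ ∂(mud d) ≤
      (∑ S ∈ (univ : Finset (Fin d)).powerset, ‖cf S‖ₑ) *
        ∫⁻ x, ∫⁻ a, ‖LD P N x a‖ₑ ∂(mud d) ∂(mud d) := by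
  classical
  set H : (Fin d → ℝ) → ENNReal := fun x => ∫⁻ a, ‖LD P N x a‖ₑ ∂(mud d) with hH
  have hHm : Measurable H := by
    have h1 : Measurable (fun v : (Fin d → ℝ) × (Fin d → ℝ) => ‖LD P N v.1 v.2‖ₑ) :=
      (measurable_LD P N).enorm
    exact h1.lintegral_prod_right'
  have hpt : ∀ᵐ y ∂(mud d), ‖(∑ z ∈ P, ∏ i, ker (z i - y i)) - (N : ℝ)‖ₑ ≤
      ∑ S ∈ (univ : Finset (Fin d)).powerset, ‖cf S‖ₑ * ∫⁻ x, H (mix S y x) ∂(mud d) := by
    filter_upwards [ae_mud d] with y hy
    rw [G_eq P N hP y hy]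
    refine (enorm_sum_le _ _).trans (Finset.sum_le_sum fun S _ => ?_)
    rw [enorm_mul]
    refine mul_le_mul_right ?_ _
    refine (enorm_integral_le_lintegral_enorm _).trans (lintegral_mono fun x => ?_)
    exact enorm_integral_le_lintegral_enorm _
  refine (lintegral_mono_ae hpt).trans ?_
  have hm2 : ∀ S : Finset (Fin d), Measurable (fun y => ∫⁻ x, H (mix S y x) ∂(mud d)) := by
    intro S
    have h1 : Measurable (fun p : (Fin d → ℝ) × (Fin d → ℝ) => H (mix S p.1 p.2)) :=
      hHm.comp (measurable_mix S)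
    exact h1.lintegral_prod_right'
  rw [lintegral_finsetSum _ fun S _ => (hm2 S).const_mul _, Finset.sum_mul]
  refine Finset.sum_le_sum fun S _ => ?_
  rw [lintegral_const_mul _ (hm2 S)]
  refine mul_le_mul_right (le_of_eq ?_) _
  have h1 : Measurable (fun p : (Fin d → ℝ) × (Fin d → ℝ) => H (mix S p.1 p.2)) :=
      hHm.comp (measurable_mix S)
  rw [← lintegral_prod _ h1.aemeasurable]
  exact (mix_mp S).lintegral_comp hHm

end Pool.Agent.R476.DM
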