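import Pool.Agent.R476.DM.PerUp
import Pool.Agent.R476.DM.Extr
import Pool.Agent.S17591

set_option autoImplicit false

/-!
# Upper bounds from point sets with small periodic discrepancy
-/

namespace Pool.Agent.R476.DM

open Finset MeasureTheory
open Pool.Agent.H739R3.PLp (LD cube measurableSet_cube mem_cube measurable_LD abs_LD_le)

theorem integrable_LD {d : ℕ} (P : Finset (Fin d → ℝ)) (N : ℕ) :
    Integrable (fun v : (Fin d → ℝ) × (Fin d → ℝ) => LD P N v.1 v.2) ((mud d).prod (mud d)) := by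
  refine Integrable.of_bound (measurable_LD P N).aestronglyMeasurable (P.card + N) ?_
  rw [← mud_cube, Measure.prod_restrict,
    ae_restrict_iff' ((measurableSet_cube (d := d)).prod (measurableSet_cube (d := d)))]
  refine Filter.Eventually.of_forall fun v hv => ?_
  rw [Real.norm_eq_abs]
  exact abs_LD_le P N v.1 v.2 (mem_cube hv.1) (mem_cube hv.2)

theorem lint_LD {d : ℕ} (P : Finset (Fin d → ℝ)) (N : ℕ) :
    ∫⁻ v, ‖LD P N v.1 v.2‖ₑ ∂((mud d).prod (mud d)) =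
      ENNReal.ofReal (∫ x in cube d, ∫ y in cube d, |LD P N x y| ^ (1 : ℝ)) := by
  rw [← ofReal_integral_norm_eq_lintegral_enorm (integrable_LD P N)]
  congr 1
  rw [integral_prod _ (integrable_LD P N).norm, mud_cube]
  simp only [Real.rpow_one, Real.norm_eq_abs]

theorem lint_LD' {d : ℕ} (P : Finset (Fin d → ℝ)) (N : ℕ) :
    ∫⁻ x, ∫⁻ a, ‖LD P N x a‖ₑ ∂(mud d) ∂(mud d) =
      ∫⁻ v, ‖LD P N v.1 v.2‖ₑ ∂((mud d).prod (mud d)) := by
  rw [lintegral_prod _ (measurable_LD P N).enorm.aemeasurable]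

/-- point sets with small periodic `L_1` discrepancy -/
theorem per_points (d : ℕ) (hd : 2 ≤ d) : ∃ C : ℝ, 0 < C ∧ ∀ m : ℕ, 2 ≤ m →
    ∃ P : Finset (Fin d → ℝ), P.card = m ∧ (∀ z ∈ P, ∀ i, z i ∈ Set.Ico (0 : ℝ) 1) ∧
      ∫⁻ v, ‖LD P m v.1 v.2‖ₑ ∂((mud d).prod (mud d)) ≤
        ENNReal.ofReal (C * (Real.log m) ^ (((d : ℝ) - 1) / 2)) := by
  obtain ⟨C, hC, H⟩ := Pool.Agent.S17591.result 1 le_rfl d hd
  have hα : 0 ≤ ((d : ℝ) - 1) / 2 := by
    have : (2 : ℝ) ≤ d := by exact_mod_cast hd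
    linarith
  refine ⟨C * 3 ^ (((d : ℝ) - 1) / 2), by positivity, fun m hm => ?_⟩
  obtain ⟨P, h1, h2, h3⟩ := H m
  refine ⟨P, h1, h2, ?_⟩
  rw [lint_LD]
  apply ENNReal.ofReal_le_ofReal
  have h4 := Pool.Agent.S17591.int_eq 1 d m P
  rw [h4] at h3
  have h5 : (1 : ℝ) / 1 = 1 := by norm_num
  rw [h5, Real.rpow_one] at h3
  refine h3.trans ?_
  rw [mul_assoc, ← Real.mul_rpow (by norm_num) (Real.log_nonneg (by
    have : (2 : ℝ) ≤ m := by exact_mod_cast hm
    linarith))]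
  refine mul_le_mul_of_nonneg_left (Real.rpow_le_rpow ?_ ?_ hα) hC.le
  · have : 0 ≤ Real.log (m : ℝ) := Real.log_natCast_nonneg m
    linarith
  · have h6 : Real.log 2 ≤ Real.log m := Real.log_le_log (by norm_num) (by exact_mod_cast hm)
    have h7 := Real.log_two_gt_d9
    linarith

/-- reindexing by `Fin m` -/
theorem exists_fin {d : ℕ} (P : Finset (Fin d → ℝ)) (m : ℕ) (h : P.card = m) :
    ∃ ξ : Fin m → Fin d → ℝ, (∀ μ, ξ μ ∈ P) ∧
      ∀ g : (Fin d → ℝ) → ℝ, ∑ z ∈ P, g z = ∑ μ, g (ξ μ) := by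
  refine ⟨fun μ => ((P.equivFinOfCardEq h).symm μ : Fin d → ℝ),
    fun μ => ((P.equivFinOfCardEq h).symm μ).2, fun g => ?_⟩
  rw [← Finset.sum_coe_sort P g]
  exact ((P.equivFinOfCardEq h).symm.sum_comp (fun z : P => g z)).symm

/-- **upper bound for the extreme `L_1` discrepancy** -/
theorem extr_upper (d : ℕ) (hd : 2 ≤ d) : ∃ C : ℝ, 0 < C ∧ ∀ m : ℕ, 2 ≤ m →
    ∃ ξ : Fin m → Fin d → ℝ, (∀ μ i, ξ μ i ∈ Set.Ico (0 : ℝ) 1) ∧
      ∫⁻ p in corners d, ‖BD univ (fun _ => 1) ξ m p.1 p.2‖ₑ ≤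
        ENNReal.ofReal (C * (Real.log m) ^ (((d : ℝ) - 1) / 2)) := by
  classical
  obtain ⟨C, hC, H⟩ := per_points d hd
  refine ⟨C, hC, fun m hm => ?_⟩
  obtain ⟨P, h1, h2, h3⟩ := H m hm
  obtain ⟨ξ, hξ, hsum⟩ := exists_fin P m h1
  refine ⟨ξ, fun μ i => h2 _ (hξ μ) i, le_trans ?_ h3⟩
  have hsub : corners d ⊆ Set.Icc (0 : Fin d → ℝ) 1 ×ˢ Set.Icc (0 : Fin d → ℝ) 1 :=
    fun p hp => ⟨hp.1, hp.2.1⟩
  have hres : (volume : Measure ((Fin d → ℝ) × (Fin d → ℝ))).restrict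
      (Set.Icc (0 : Fin d → ℝ) 1 ×ˢ Set.Icc (0 : Fin d → ℝ) 1) = (mud d).prod (mud d) := by
    rw [Measure.volume_eq_prod, ← Measure.prod_restrict, mud_Icc]
  calc ∫⁻ p in corners d, ‖BD univ (fun _ => 1) ξ m p.1 p.2‖ₑ
      = ∫⁻ p in corners d, ‖LD P m p.1 p.2‖ₑ := by
        refine setLIntegral_congr_fun (measurableSet_corners d) fun p hp => ?_
        have hle : ∀ i, p.1 i ≤ p.2 i := hp.2.2
        have e : BD univ (fun _ => 1) ξ m p.1 p.2 = LD P m p.1 p.2 := by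
          unfold BD LD
          rw [hsum]
          congr 1
          · refine Finset.sum_congr rfl fun μ _ => ?_
            rw [one_mul]
            refine if_congr (forall_congr' fun i => ?_) rfl rfl
            constructor
            · intro h; exact Or.inl ⟨hle i, h⟩
            · rintro (h | h)
              · exact h.2
              · exact absurd h.1 (not_lt.2 (hle i))
          · congr 1
            exact Finset.prod_congr rfl fun i _ => (if_pos (hle i)).symm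
        simp only [e]
    _ ≤ ∫⁻ p in Set.Icc (0 : Fin d → ℝ) 1 ×ˢ Set.Icc (0 : Fin d → ℝ) 1, ‖LD P m p.1 p.2‖ₑ :=
        lintegral_mono_set hsub
    _ = _ := by rw [hres]

/-- the integral of a convolution -/
theorem integral_conv {d : ℕ} (ψ : (Fin d → ℝ) → ℝ) (hψ : Measurable ψ) (B : ℝ)
    (hB : ∀ y, |ψ y| ≤ B) : ∫ z, conv ψ z ∂(mud d) = ∫ y, ψ y ∂(mud d) := by
  unfold conv
  rw [mud_Icc, integral_integral_swap]
  · refine integral_congr_ae ?_
    filter_upwards [ae_mud d] with y hy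
    rw [integral_const_mul]
    unfold mud
    rw [integral_fintype_prod_eq_prod (fun i z => ker (z - y i)),
      Finset.prod_eq_one fun i _ => int_ker (y i) (hy i), mul_one]
  · refine Integrable.of_bound ?_ (B * ∏ _i : Fin d, (1 + Real.pi)) ?_
    · refine Measurable.aestronglyMeasurable ?_
      unfold Function.uncurry
      refine (hψ.comp measurable_snd).mul ?_
      refine Finset.measurable_fun_prod _ fun i _ => ker_meas.comp ?_
      exact ((measurable_pi_apply i).comp measurable_fst).sub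
        ((measurable_pi_apply i).comp measurable_snd)
    · refine Filter.Eventually.of_forall fun p => ?_
      have hB0 : 0 ≤ B := (abs_nonneg _).trans (hB p.2)
      simp only [Function.uncurry, Real.norm_eq_abs, abs_mul]
      refine mul_le_mul (hB p.2) ?_ (abs_nonneg _) hB0
      rw [Finset.abs_prod]
      exact Finset.prod_le_prod (fun _ _ => abs_nonneg _) fun i _ => ker_abs _

/-- **the error of a cubature formula for a convolution** -/
theorem conv_err {d m : ℕ} (lam : Fin m → ℝ) (ξ : Fin m → Fin d → ℝ) (ψ : (Fin d → ℝ) → ℝ)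
    (hψ : Measurable ψ) (B : ℝ) (hB : ∀ y, |ψ y| ≤ B) :
    ∑ μ, lam μ * conv ψ (ξ μ) - ∫ z in Set.Icc (0 : Fin d → ℝ) 1, conv ψ z =
      ∫ y, ψ y * ((∑ μ, lam μ * ∏ i, ker (ξ μ i - y i)) - 1) ∂(mud d) := by
  have hi0 : Integrable ψ (mud d) :=
    Integrable.of_bound hψ.aestronglyMeasurable B (Filter.Eventually.of_forall hB)
  have hi1 : ∀ μ ∈ (univ : Finset (Fin m)), Integrable (fun y : Fin d → ℝ =>
      lam μ * (ψ y * ∏ i, ker (ξ μ i - y i))) (mud d) := by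
    intro μ _
    refine Integrable.const_mul ?_ _
    refine Integrable.of_bound (hψ.mul (Finset.measurable_fun_prod _ fun i _ =>
      ker_meas.comp ((measurable_pi_apply i).const_sub _))).aestronglyMeasurable
      (B * ∏ _i : Fin d, (1 + Real.pi)) (Filter.Eventually.of_forall fun y => ?_)
    have hB0 : 0 ≤ B := (abs_nonneg _).trans (hB y)
    rw [Real.norm_eq_abs, abs_mul]
    refine mul_le_mul (hB y) ?_ (abs_nonneg _) hB0
    rw [Finset.abs_prod]
    exact Finset.prod_le_prod (fun _ _ => abs_nonneg _) fun i _ => ker_abs _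
  have h1 : (fun y : Fin d → ℝ => ψ y * ((∑ μ, lam μ * ∏ i, ker (ξ μ i - y i)) - 1)) = fun y =>
      (∑ μ, lam μ * (ψ y * ∏ i, ker (ξ μ i - y i))) - ψ y := by
    funext y
    rw [mul_sub, Finset.mul_sum, mul_one]
    congr 1
    exact Finset.sum_congr rfl fun μ _ => by ring
  rw [h1, integral_sub (integrable_finsetSum _ hi1) hi0, integral_finsetSum _ hi1, mud_Icc,
    integral_conv ψ hψ B hB]
  congr 1
  refine Finset.sum_congr rfl fun μ _ => ?_
  rw [integral_const_mul]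
  unfold conv
  rw [mud_Icc]

/-- **upper bound for the periodic class** -/
theorem per_upper (d : ℕ) (hd : 2 ≤ d) : ∃ C : ℝ, 0 < C ∧ ∀ m : ℕ, 2 ≤ m →
    ∃ ξ : Fin m → Fin d → ℝ, (∀ μ i, ξ μ i ∈ Set.Ico (0 : ℝ) 1) ∧
      ∀ ψ : (Fin d → ℝ) → ℝ, Measurable ψ → (∀ y, |ψ y| ≤ 1) →
        ‖∑ μ, 1 / (m : ℝ) * conv ψ (ξ μ) - ∫ z in Set.Icc (0 : Fin d → ℝ) 1, conv ψ z‖ₑ ≤
          ENNReal.ofReal (C * (Real.log m) ^ (((d : ℝ) - 1) / 2) / m) := by
  classical
  obtain ⟨C, hC, H⟩ := per_points d hd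
  set A : ℝ := 1 + ∑ S ∈ (univ : Finset (Fin d)).powerset, |cf S| with hA
  have hA0 : 0 < A := by
    have : 0 ≤ ∑ S ∈ (univ : Finset (Fin d)).powerset, |cf S| :=
      Finset.sum_nonneg fun _ _ => abs_nonneg _
    linarith
  refine ⟨A * C, by positivity, fun m hm => ?_⟩
  obtain ⟨P, h1, h2, h3⟩ := H m hm
  obtain ⟨ξ, hξ, hsum⟩ := exists_fin P m h1
  refine ⟨ξ, fun μ i => h2 _ (hξ μ) i, fun ψ hψ hψ1 => ?_⟩
  have hm0 : (0 : ℝ) < m := by
    have : (2 : ℝ) ≤ m := by exact_mod_cast hm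
    linarith
  rw [conv_err (fun _ => 1 / (m : ℝ)) ξ ψ hψ 1 hψ1]
  have hG : ∀ y : Fin d → ℝ, (∑ μ, 1 / (m : ℝ) * ∏ i, ker (ξ μ i - y i)) - 1 =
      1 / (m : ℝ) * ((∑ z ∈ P, ∏ i, ker (z i - y i)) - m) := by
    intro y
    rw [hsum (fun z => ∏ i, ker (z i - y i)), ← Finset.mul_sum, mul_sub]
    congr 1
    field_simp
  have hA1 : ∑ S ∈ (univ : Finset (Fin d)).powerset, ‖cf S‖ₑ ≤ ENNReal.ofReal A := by
    have e : ∀ S ∈ (univ : Finset (Fin d)).powerset, ‖cf S‖ₑ = ENNReal.ofReal |cf S| := by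
      intro S _
      rw [← ofReal_norm, Real.norm_eq_abs]
    rw [Finset.sum_congr rfl e, ← ENNReal.ofReal_sum_of_nonneg fun _ _ => abs_nonneg _]
    apply ENNReal.ofReal_le_ofReal
    rw [hA]
    linarith
  have hlog : 0 ≤ (Real.log (m : ℝ)) ^ (((d : ℝ) - 1) / 2) :=
    Real.rpow_nonneg (Real.log_natCast_nonneg m) _
  calc ‖∫ y, ψ y * ((∑ μ, 1 / (m : ℝ) * ∏ i, ker (ξ μ i - y i)) - 1) ∂(mud d)‖ₑ
      ≤ ∫⁻ y, ‖ψ y * ((∑ μ, 1 / (m : ℝ) * ∏ i, ker (ξ μ i - y i)) - 1)‖ₑ ∂(mud d) :=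
        enorm_integral_le_lintegral_enorm _
    _ ≤ ∫⁻ y, ENNReal.ofReal (1 / m) * ‖(∑ z ∈ P, ∏ i, ker (z i - y i)) - (m : ℝ)‖ₑ ∂(mud d) := by
        refine lintegral_mono fun y => ?_
        rw [hG y, enorm_mul, enorm_mul]
        have e1 : ‖ψ y‖ₑ ≤ 1 := by
          rw [← ofReal_norm, Real.norm_eq_abs]
          exact ENNReal.ofReal_le_one.2 (hψ1 y)
        have e2 : ‖(1 / (m : ℝ))‖ₑ = ENNReal.ofReal (1 / m) := by
          rw [← ofReal_norm, Real.norm_eq_abs, abs_of_pos (by positivity)]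
        rw [e2]
        calc ‖ψ y‖ₑ * (ENNReal.ofReal (1 / m) * ‖(∑ z ∈ P, ∏ i, ker (z i - y i)) - (m : ℝ)‖ₑ)
            ≤ 1 * (ENNReal.ofReal (1 / m) * ‖(∑ z ∈ P, ∏ i, ker (z i - y i)) - (m : ℝ)‖ₑ) := by
              gcongr
          _ = _ := one_mul _
    _ = ENNReal.ofReal (1 / m) *
        ∫⁻ y, ‖(∑ z ∈ P, ∏ i, ker (z i - y i)) - (m : ℝ)‖ₑ ∂(mud d) := by
        rw [lintegral_const_mul]
        refine Measurable.enorm (Measurable.sub_const ?_ _)
        exact Finset.measurable_fun_sum _ fun z _ => Finset.measurable_fun_prod _ fun i _ =>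
          ker_meas.comp ((measurable_pi_apply i).const_sub _)
    _ ≤ ENNReal.ofReal (1 / m) * (ENNReal.ofReal A *
          ENNReal.ofReal (C * (Real.log m) ^ (((d : ℝ) - 1) / 2))) := by
        refine mul_le_mul_right ?_ _
        refine (G_norm P m h2).trans ?_
        rw [lint_LD']
        exact mul_le_mul' hA1 h3
    _ = ENNReal.ofReal (A * C * (Real.log m) ^ (((d : ℝ) - 1) / 2) / m) := by
        rw [← ENNReal.ofReal_mul hA0.le, ← ENNReal.ofReal_mul (by positivity)]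
        congr 1
        ring

end Pool.Agent.R476.DM
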